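import Mathlib
import Pool.Graph.R_pool_sql_team_seeded_1acbe0a2.Y866.LK.Page
import Pool.Graph.R_seed8.W66.LT

set_option autoImplicit false

namespace Pool.Agent.H77.TO

open Finset MeasureTheory Filter Topology Pool.Agent.W66L

/-- LINB: Linnik type bound for the moduli `b ^ k` -/
def St_LINB : Prop := ∀ b : ℕ, 2 ≤ b → ∃ (K : ℕ) (c : ℝ), 1 ≤ K ∧ 0 < c ∧ ∃ z0 : ℕ, ∀ z : ℕ, z0 ≤ z →
    ∀ k a : ℕ, (b ^ k) ^ 16 ≤ z → a.Coprime (b ^ k) →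
    c / ((b ^ k).totient : ℝ) ≤
      ∑ p ∈ (Ioc z (z ^ K)).filter (fun p => p.Prime ∧ p ≡ a [MOD b ^ k]), (1 : ℝ) / p

/-- AVG: the mean square of `r / φ(r)` -/
def St_AVG : Prop := ∃ C : ℝ, 0 < C ∧ ∀ R : ℕ,
    ∑ r ∈ Icc 1 R, ((r : ℝ) / (Nat.totient r : ℝ)) ^ 2 ≤ C * R

/-- SLLN: strong law for the digits, blocks `(m j, m (j + 1)]` -/
def St_SLLN : Prop := ∀ (b : ℕ) [NeZero b], 2 ≤ b → ∀ (m : ℕ → ℕ), Monotone m →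
  ∀ (X : ℕ → ℕ → ℝ) (c C : ℝ) (j0 : ℕ), 0 < c → 0 < C → (∀ j s, 0 ≤ X j s) →
  (∀ j, j0 ≤ j → ∀ u, u < b ^ m j →
    c * (b : ℝ) ^ m (j + 1) / b ^ m j ≤
      ∑ s ∈ (range (b ^ m (j + 1))).filter (fun s => s % b ^ m j = u), X j s ∧
    ∑ s ∈ (range (b ^ m (j + 1))).filter (fun s => s % b ^ m j = u), X j s ≤
      C * (b : ℝ) ^ m (j + 1) / b ^ m j ∧
    ∑ s ∈ (range (b ^ m (j + 1))).filter (fun s => s % b ^ m j = u), (X j s) ^ 2 ≤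
      C * (b : ℝ) ^ m (j + 1) / b ^ m j) →
  ∀ᵐ x ∂(digitMeasure b), ∀ᶠ J : ℕ in atTop,
    c / 2 * J ≤ ∑ j ∈ range J, X j (dsum b (m (j + 1)) x) ∧
    ∑ j ∈ range J, X j (dsum b (m (j + 1)) x) ≤ 2 * C * J

end Pool.Agent.H77.TO
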