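import Mathlib

/-!
# Counting lemmas: second moment, digits
-/

set_option autoImplicit false

namespace Pool.Agent.H77.TO

open Finset

/-- second moment -/
theorem second {Ω I : Finset ℕ} {A : ℕ → ℕ → Prop} [∀ l s, Decidable (A l s)] {g κ : ℕ → ℝ} {S : ℝ} {N : ℕ}
    (hg : ∀ l ∈ I, ((Ω.filter (fun s => A l s)).card : ℝ) = g l)
    (hκ : ∀ j, 0 ≤ κ j)
    (h2 : ∀ l ∈ I, ∀ l' ∈ I, l ≤ l' →
      ((Ω.filter (fun s => A l s ∧ A l' s)).card : ℝ) ≤ g l * κ (l' - l))
    (hI : ∀ l ∈ I, l < N) (hS : ∑ j ∈ range N, κ j ≤ S) :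
    ∑ l ∈ I, g l ≤ 2 * S * ((Ω.filter (fun s => ∃ l ∈ I, A l s)).card : ℝ) := by
  classical
  have hg0 : ∀ l ∈ I, 0 ≤ g l := fun l hl => by rw [← hg l hl]; positivity
  obtain ⟨G, hG⟩ : ∃ G : ℝ, G = ∑ l ∈ I, g l := ⟨_, rfl⟩
  have hG0 : 0 ≤ G := by rw [hG]; exact sum_nonneg hg0
  have hS0 : 0 ≤ S := (sum_nonneg fun j _ => hκ j).trans hS
  rw [← hG]
  obtain ⟨F, hF⟩ : ∃ F : Finset ℕ, F = Ω.filter (fun s => ∃ l ∈ I, A l s) := ⟨_, rfl⟩
  rw [← hF]
  obtain ⟨X, hX⟩ : ∃ X : ℕ → ℝ, X = fun s => ∑ l ∈ I, if A l s then (1 : ℝ) else 0 := ⟨_, rfl⟩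
  have hsum : ∀ l ∈ I, ∑ s ∈ F, (if A l s then (1 : ℝ) else 0) = g l := by
    intro l hl
    rw [← hg l hl, sum_boole]
    congr 2
    rw [hF]
    ext s
    simp only [mem_filter]
    constructor
    · rintro ⟨⟨h1, -⟩, h3⟩; exact ⟨h1, h3⟩
    · rintro ⟨h1, h3⟩; exact ⟨⟨h1, l, hl, h3⟩, h3⟩
  have h3 : ∑ s ∈ F, X s = G := by
    rw [hX]
    simp only
    rw [sum_comm, hG]
    exact sum_congr rfl hsum
  have h4 : ∑ s ∈ F, X s ^ 2 ≤ 2 * S * G := by
    have e1 : ∀ s, X s ^ 2 = ∑ l ∈ I, ∑ l' ∈ I, if A l s ∧ A l' s then (1 : ℝ) else 0 := by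
      intro s
      rw [hX]
      simp only
      rw [sq, sum_mul_sum]
      refine sum_congr rfl fun l _ => sum_congr rfl fun l' _ => ?_
      by_cases ha : A l s <;> by_cases hb : A l' s <;> simp [ha, hb]
    have e2 : ∑ s ∈ F, X s ^ 2 =
        ∑ l ∈ I, ∑ l' ∈ I, ((Ω.filter (fun s => A l s ∧ A l' s)).card : ℝ) := by
      rw [sum_congr rfl fun s _ => e1 s, sum_comm]
      refine sum_congr rfl fun l hl => ?_
      rw [sum_comm]
      refine sum_congr rfl fun l' hl' => ?_
      rw [sum_boole]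
      congr 2
      rw [hF]
      ext s
      simp only [mem_filter]
      constructor
      · rintro ⟨⟨h1, -⟩, h3⟩; exact ⟨h1, h3⟩
      · rintro ⟨h1, h3⟩; exact ⟨⟨h1, l, hl, h3.1⟩, h3⟩
    rw [e2]
    obtain ⟨h, hh⟩ : ∃ h : ℕ → ℕ → ℝ, h = fun l l' => if l ≤ l' then g l * κ (l' - l) else 0 := ⟨_, rfl⟩
    have h0 : ∀ l ∈ I, ∀ l', 0 ≤ h l l' := by
      intro l hl l'
      rw [hh]
      simp only
      split_ifs
      · exact mul_nonneg (hg0 l hl) (hκ _)
      · exact le_rfl
    have e3 : ∀ l ∈ I, ∀ l' ∈ I, ((Ω.filter (fun s => A l s ∧ A l' s)).card : ℝ) ≤ h l l' + h l' l := by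
      intro l hl l' hl'
      rcases le_total l l' with hle | hle
      · have := h2 l hl l' hl' hle
        have e4 : h l l' = g l * κ (l' - l) := by rw [hh]; simp [hle]
        have := h0 l' hl' l
        linarith
      · have h5 := h2 l' hl' l hl hle
        have e4 : h l' l = g l' * κ (l - l') := by rw [hh]; simp [hle]
        have e5 : (Ω.filter (fun s => A l s ∧ A l' s)) = (Ω.filter (fun s => A l' s ∧ A l s)) := by
          ext s; simp only [mem_filter]; tauto
        have := h0 l hl l'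
        rw [e5]
        linarith
    have e6 : ∑ l ∈ I, ∑ l' ∈ I, h l l' ≤ S * G := by
      rw [hG, mul_sum]
      refine sum_le_sum fun l hl => ?_
      have e7 : ∑ l' ∈ I, h l l' ≤ ∑ j ∈ range N, g l * κ j := by
        have e8 : ∑ l' ∈ I, h l l' = ∑ l' ∈ I.filter (fun l' => l ≤ l'), g l * κ (l' - l) := by
          rw [sum_filter, hh]
        rw [e8]
        have hinj : Set.InjOn (fun l' : ℕ => l' - l) (I.filter (fun l' => l ≤ l') : Finset ℕ) := by
          intro a ha b hb hab
          simp only [coe_filter, Set.mem_ofPred_eq] at ha hb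
          simp only at hab
          omega
        rw [← sum_image (f := fun j => g l * κ j) (g := fun l' : ℕ => l' - l) hinj]
        apply sum_le_sum_of_subset_of_nonneg
        · intro j hj
          rw [mem_image] at hj
          obtain ⟨l', hl', rfl⟩ := hj
          rw [mem_filter] at hl'
          rw [mem_range]
          have := hI l' hl'.1
          omega
        · intro j _ _
          exact mul_nonneg (hg0 l hl) (hκ j)
      refine e7.trans ?_
      rw [← mul_sum, mul_comm]
      exact mul_le_mul_of_nonneg_right hS (hg0 l hl)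
    calc ∑ l ∈ I, ∑ l' ∈ I, ((Ω.filter (fun s => A l s ∧ A l' s)).card : ℝ)
        ≤ ∑ l ∈ I, ∑ l' ∈ I, (h l l' + h l' l) :=
          sum_le_sum fun l hl => sum_le_sum fun l' hl' => e3 l hl l' hl'
      _ = ∑ l ∈ I, ∑ l' ∈ I, h l l' + ∑ l ∈ I, ∑ l' ∈ I, h l' l := by
          rw [← sum_add_distrib]
          exact sum_congr rfl fun l _ => sum_add_distrib
      _ = 2 * ∑ l ∈ I, ∑ l' ∈ I, h l l' := by
          rw [sum_comm (f := fun l l' => h l' l)]; ring
      _ ≤ 2 * (S * G) := by linarith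
      _ = 2 * S * G := by ring
  have h5 : G ^ 2 ≤ F.card * (2 * S * G) := by
    have h6 := sq_sum_le_card_mul_sum_sq (s := F) (f := X)
    rw [h3] at h6
    exact h6.trans (mul_le_mul_of_nonneg_left h4 (by positivity))
  rcases hG0.eq_or_lt with h7 | h7
  · rw [← h7]; positivity
  · have h8 : G * G ≤ (2 * S * F.card) * G := by nlinarith
    exact le_of_mul_le_mul_right h8 h7

/-- residues -/
theorem card_mod (a : ℕ) (Q : ℕ → Prop) [DecidablePred Q] (b : ℕ) :
    ((range (a * b)).filter (fun s => Q (s % a))).card = b * ((range a).filter Q).card := by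
  classical
  rcases Nat.eq_zero_or_pos a with rfl | ha
  · simp
  rw [card_eq_sum_card_fiberwise (f := fun s => s / a) (t := range b)]
  · rw [sum_congr rfl (g := fun _ => ((range a).filter Q).card)]
    · simp
    · intro j hj
      rw [mem_range] at hj
      refine card_nbij' (fun s => s % a) (fun t => t + a * j) ?_ ?_ ?_ ?_
      · intro s hs
        simp only [coe_filter, mem_filter, mem_range, Set.mem_ofPred_eq] at hs ⊢
        exact ⟨Nat.mod_lt _ ha, hs.1.2⟩
      · intro t ht
        simp only [coe_filter, mem_filter, mem_range, Set.mem_ofPred_eq] at ht ⊢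
        refine ⟨⟨?_, ?_⟩, ?_⟩
        · calc t + a * j < a + a * j := by omega
            _ = a * (j + 1) := by ring
            _ ≤ a * b := Nat.mul_le_mul_left _ hj
        · rw [Nat.add_mul_mod_self_left, Nat.mod_eq_of_lt ht.1]
          exact ht.2
        · rw [Nat.add_mul_div_left _ _ ha, Nat.div_eq_of_lt ht.1, zero_add]
      · intro s hs
        simp only [coe_filter, mem_filter, mem_range, Set.mem_ofPred_eq] at hs
        rw [← hs.2]
        exact Nat.mod_add_div s a
      · intro t ht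
        simp only [coe_filter, mem_filter, mem_range, Set.mem_ofPred_eq] at ht
        simp only
        rw [Nat.add_mul_mod_self_left, Nat.mod_eq_of_lt ht.1]
  · intro s hs
    simp only [coe_filter, mem_range, Set.mem_ofPred_eq] at hs
    simp only [coe_range, Set.mem_Iio]
    exact Nat.div_lt_of_lt_mul hs.1

/-- fibres -/
theorem card_fib {a b D : ℕ} (Q R : ℕ → Prop) [DecidablePred Q] [DecidablePred R]
    (h : ∀ t < a, Q t → ((range b).filter (fun r => R (t + a * r))).card ≤ D) :
    ((range (a * b)).filter (fun s => Q (s % a) ∧ R s)).card ≤ D * ((range a).filter Q).card := by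
  classical
  rcases Nat.eq_zero_or_pos a with rfl | ha
  · simp
  apply card_le_mul_card_image_of_maps_to (f := fun s => s % a)
  · intro s hs
    rw [mem_filter] at hs
    rw [mem_filter, mem_range]
    exact ⟨Nat.mod_lt _ ha, hs.2.1⟩
  · intro t ht
    rw [mem_filter, mem_range] at ht
    refine le_trans ?_ (h t ht.1 ht.2)
    apply card_le_card_of_injOn (fun s => s / a)
    · intro s hs
      simp only [coe_filter, mem_filter, mem_range, Set.mem_ofPred_eq] at hs ⊢
      obtain ⟨⟨h1, h2, h3⟩, h4⟩ := hs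
      refine ⟨Nat.div_lt_of_lt_mul h1, ?_⟩
      rw [← h4, Nat.mod_add_div]
      exact h3
    · intro s hs s' hs' hss
      simp only [coe_filter, mem_filter, mem_range, Set.mem_ofPred_eq] at hs hs' hss
      have h1 := Nat.mod_add_div s a
      have h2 := Nat.mod_add_div s' a
      rw [← h1, ← h2, hs.2, hs'.2, hss]

end Pool.Agent.H77.TO
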