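import Pool.Agent.H77.TO.Lin
import Pool.Agent.H77.TO.Cnt
import Pool.Graph.R_seed8.H95R2.Leh.ApSieve

/-!
# One block of lengths
-/

set_option autoImplicit false

namespace Pool.Agent.H77.TO

open Finset

/-- primes in short progressions modulo powers of ten -/
theorem sieve10 : ∃ C : ℝ, 1 ≤ C ∧ ∀ e a j : ℕ, 1 ≤ e → 1 ≤ j →
    (((range (10 ^ j)).filter (fun r => (a + 10 ^ e * r).Prime)).card : ℝ) ≤ C * 10 ^ j / (j + 1) := by
  classical
  obtain ⟨C, hC, h⟩ := Pool.Agent.H95R2.Leh.ap_sieve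
  refine ⟨5 / 2 * C + 10, by linarith, fun e a j he hj => ?_⟩
  have h1 := h a (10 ^ e) (10 ^ j) (Nat.one_le_pow _ _ (by norm_num))
    (le_trans (by norm_num) (Nat.pow_le_pow_right (by norm_num) hj : 10 ^ 1 ≤ 10 ^ j))
  have hsub : (range (10 ^ j)).filter (fun r => (a + 10 ^ e * r).Prime) ⊆
      ((range (10 ^ j)).filter
        (fun i => ∀ p : ℕ, p.Prime → (p : ℝ) ^ 8 ≤ ((10 ^ j : ℕ) : ℝ) → ¬ p ∣ a + i * 10 ^ e)) ∪
      range (10 ^ (j / 8 + 1)) := by
    intro r hr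
    rw [mem_filter, mem_range] at hr
    rw [mem_union, mem_filter, mem_range, mem_range]
    by_cases hb : r < 10 ^ (j / 8 + 1)
    · right; exact hb
    · left
      push Not at hb
      refine ⟨hr.1, fun p hp hp8 hpd => ?_⟩
      have e1 : a + r * 10 ^ e = a + 10 ^ e * r := by ring
      rw [e1] at hpd
      have e2 : p = a + 10 ^ e * r := (Nat.prime_dvd_prime_iff_eq hp hr.2).1 hpd
      have e3 : p ^ 8 ≤ 10 ^ j := by exact_mod_cast hp8
      have e4 : 10 ^ (j / 8 + 1) ≤ p := by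
        rw [e2]
        calc 10 ^ (j / 8 + 1) ≤ r := hb
          _ ≤ 10 ^ e * r := Nat.le_mul_of_pos_left _ (by positivity)
          _ ≤ _ := Nat.le_add_left _ _
      have e5 : 10 ^ j < p ^ 8 := by
        calc 10 ^ j < 10 ^ ((j / 8 + 1) * 8) := Nat.pow_lt_pow_right (by norm_num) (by omega)
          _ = (10 ^ (j / 8 + 1)) ^ 8 := by rw [pow_mul]
          _ ≤ p ^ 8 := Nat.pow_le_pow_left e4 8
      omega
  have h2 : (((range (10 ^ j)).filter (fun r => (a + 10 ^ e * r).Prime)).card : ℝ) ≤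
      C * (((10 ^ e : ℕ) : ℝ) / Nat.totient (10 ^ e)) * ((10 ^ j : ℕ) : ℝ) / Real.log ((10 ^ j : ℕ) : ℝ) +
        10 ^ (j / 8 + 1) := by
    refine le_trans (Nat.cast_le.2 ((card_le_card hsub).trans (card_union_le _ _))) ?_
    rw [card_range]
    push_cast
    push_cast at h1
    linarith
  have hphi : ((10 ^ e : ℕ) : ℝ) / Nat.totient (10 ^ e) = 5 / 2 := by
    have e6 : Nat.totient (10 ^ e) = 4 * 10 ^ (e - 1) := by
      have e7 : (10 : ℕ) ^ e = 2 ^ e * 5 ^ e := by rw [← mul_pow]; norm_num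
      rw [e7, Nat.totient_mul (Nat.Coprime.pow _ _ (by norm_num)),
        Nat.totient_prime_pow Nat.prime_two (by omega), Nat.totient_prime_pow (by norm_num) (by omega)]
      have e8 : (10 : ℕ) ^ (e - 1) = 2 ^ (e - 1) * 5 ^ (e - 1) := by rw [← mul_pow]; norm_num
      rw [e8]
      ring
    rw [e6]
    obtain ⟨f, rfl⟩ : ∃ f, e = f + 1 := ⟨e - 1, by omega⟩
    rw [Nat.add_sub_cancel, pow_succ]
    push_cast
    field_simp
    norm_num
  rw [hphi] at h2
  push_cast at h2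
  have hj0 : (0 : ℝ) < j := by exact_mod_cast hj
  have hlog : 2 * (j : ℝ) ≤ Real.log ((10 : ℝ) ^ j) := by
    rw [Real.log_pow]
    have e9 : (2 : ℝ) ≤ Real.log 10 := by
      rw [Real.le_log_iff_exp_le (by norm_num)]
      have h5 := Real.exp_one_lt_d9
      calc Real.exp 2 = Real.exp 1 ^ 2 := by rw [← Real.exp_nat_mul]; norm_num
        _ ≤ 2.7182818286 ^ 2 := by
            exact pow_le_pow_left₀ (Real.exp_pos 1).le h5.le 2
        _ ≤ 10 := by norm_num
    nlinarith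
  have h3 : C * (5 / 2) * (10 : ℝ) ^ j / Real.log ((10 : ℝ) ^ j) ≤ 5 / 2 * C * 10 ^ j / (j + 1) := by
    have e10 : (j : ℝ) + 1 ≤ Real.log ((10 : ℝ) ^ j) := by
      have : (1 : ℝ) ≤ j := by exact_mod_cast hj
      linarith
    calc C * (5 / 2) * (10 : ℝ) ^ j / Real.log ((10 : ℝ) ^ j) ≤ C * (5 / 2) * (10 : ℝ) ^ j / (j + 1) :=
          div_le_div_of_nonneg_left (by positivity) (by positivity) e10
      _ = 5 / 2 * C * 10 ^ j / (j + 1) := by ring
  have h4 : (10 : ℝ) ^ (j / 8 + 1) ≤ 10 * 10 ^ j / (j + 1) := by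
    rw [le_div_iff₀ (by positivity)]
    have e11 : 10 ^ (j / 8 + 1) * (j + 1) ≤ 10 * 10 ^ j := by
      have e12 : j + 1 ≤ 2 ^ j := Nat.lt_two_pow_self
      have e13 : 10 ^ (j / 8) ≤ 5 ^ j := by
        calc 10 ^ (j / 8) ≤ (5 ^ 8) ^ (j / 8) := Nat.pow_le_pow_left (by norm_num) _
          _ = 5 ^ (8 * (j / 8)) := by rw [pow_mul]
          _ ≤ 5 ^ j := Nat.pow_le_pow_right (by norm_num) (Nat.mul_div_le j 8)
      calc 10 ^ (j / 8 + 1) * (j + 1) = 10 * (10 ^ (j / 8) * (j + 1)) := by ring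
        _ ≤ 10 * (5 ^ j * 2 ^ j) := Nat.mul_le_mul_left _ (Nat.mul_le_mul e13 e12)
        _ = 10 * 10 ^ j := by rw [← mul_pow]; norm_num
    exact_mod_cast e11
  calc _ ≤ C * (5 / 2) * (10 : ℝ) ^ j / Real.log ((10 : ℝ) ^ j) + 10 ^ (j / 8 + 1) := h2
    _ ≤ 5 / 2 * C * 10 ^ j / (j + 1) + 10 * 10 ^ j / (j + 1) := add_le_add h3 h4
    _ = (5 / 2 * C + 10) * 10 ^ j / (j + 1) := by ring

/-- `w + 10 ^ m t` is a prime larger than `10 ^ (32 m)` -/
def Good (w m t : ℕ) : Prop := (w + 10 ^ m * t).Prime ∧ 10 ^ (32 * m) < w + 10 ^ m * t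

instance (w m t : ℕ) : Decidable (Good w m t) := by unfold Good; infer_instance

/-- the event of the block -/
def Ev (K w m s : ℕ) : Prop := ∃ l ∈ Ioc m (32 * K * m), Good w m (s % 10 ^ l)

theorem block : ∃ (K : ℕ) (c : ℝ), 1 ≤ K ∧ 0 < c ∧ ∃ m0 : ℕ, 1 ≤ m0 ∧ ∀ m : ℕ, m0 ≤ m →
    ∀ w u : ℕ, w < 10 ^ m → w.Coprime 10 → u < 10 ^ m → ∀ F : Finset ℕ,
    (∀ s, s < 10 ^ (32 * K * m) → s % 10 ^ m = u → Ev K w m s → s ∈ F) →
    c * (10 : ℝ) ^ (32 * K * m) / 10 ^ m ≤ (1 + Real.log ((32 * K * m : ℕ) + 1)) * (F.card : ℝ) := by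
  classical
  obtain ⟨K, c, hK, hc, z0, hlin⟩ := lin10
  obtain ⟨C, hC, hsieve⟩ := sieve10
  refine ⟨K, c / (20 * C), hK, by positivity, z0 + 1, by omega, ?_⟩
  intro m hm w u hw hwc hu F hF
  have hm1 : 1 ≤ m := by omega
  obtain ⟨M, hM⟩ : ∃ M : ℕ, M = 32 * K * m := ⟨_, rfl⟩
  rw [← hM] at hF ⊢
  have hmM : m ≤ M := by
    rw [hM]
    exact Nat.le_mul_of_pos_left _ (by positivity)
  obtain ⟨B, hB⟩ : ∃ B : ℕ → Finset ℕ,
    B = fun l => (range (10 ^ l)).filter (fun t => t % 10 ^ m = u ∧ Good w m t) := ⟨_, rfl⟩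
  obtain ⟨Ω, hΩ⟩ : ∃ Ω : Finset ℕ, Ω = (range (10 ^ M)).filter (fun s => s % 10 ^ m = u) := ⟨_, rfl⟩
  have hmm : ∀ l l' s : ℕ, l ≤ l' → s % 10 ^ l' % 10 ^ l = s % 10 ^ l := fun l l' s h =>
    Nat.mod_mod_of_dvd s (pow_dvd_pow 10 h)
  have hg : ∀ l ∈ Ioc m M, ((Ω.filter (fun s => Good w m (s % 10 ^ l))).card : ℝ) =
      (10 : ℝ) ^ M / 10 ^ l * (B l).card := by
    intro l hl
    rw [mem_Ioc] at hl
    have e1 : Ω.filter (fun s => Good w m (s % 10 ^ l)) = (range (10 ^ l * 10 ^ (M - l))).filter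
        (fun s => (s % 10 ^ l) % 10 ^ m = u ∧ Good w m (s % 10 ^ l)) := by
      rw [hΩ, filter_filter, ← pow_add, show l + (M - l) = M by omega]
      ext s
      simp only [mem_filter]
      rw [hmm m l s hl.1.le]
    rw [e1, card_mod (10 ^ l) (fun t => t % 10 ^ m = u ∧ Good w m t) (10 ^ (M - l)), hB]
    push_cast
    congr 1
    rw [eq_div_iff (by positivity), ← pow_add, show M - l + l = M by omega]
  have h2 : ∀ l ∈ Ioc m M, ∀ l' ∈ Ioc m M, l ≤ l' →
      ((Ω.filter (fun s => Good w m (s % 10 ^ l) ∧ Good w m (s % 10 ^ l'))).card : ℝ) ≤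
      (10 : ℝ) ^ M / 10 ^ l * (B l).card * (C / (((l' - l : ℕ) : ℝ) + 1)) := by
    intro l hl l' hl' hll
    rcases hll.eq_or_lt with rfl | hlt
    · have e2 : Ω.filter (fun s => Good w m (s % 10 ^ l) ∧ Good w m (s % 10 ^ l)) =
          Ω.filter (fun s => Good w m (s % 10 ^ l)) := by
        ext s; simp only [mem_filter]; tauto
      rw [e2, hg l hl]
      have e3 : (1 : ℝ) ≤ C / (((l - l : ℕ) : ℝ) + 1) := by simpa using hC
      exact le_mul_of_one_le_right (by positivity) e3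
    · rw [mem_Ioc] at hl hl'
      obtain ⟨j, hj⟩ : ∃ j : ℕ, j = l' - l := ⟨_, rfl⟩
      have e1 : Ω.filter (fun s => Good w m (s % 10 ^ l) ∧ Good w m (s % 10 ^ l')) =
          (range (10 ^ l' * 10 ^ (M - l'))).filter
          (fun s => (((s % 10 ^ l') % 10 ^ l) % 10 ^ m = u ∧ Good w m ((s % 10 ^ l') % 10 ^ l)) ∧
            Good w m (s % 10 ^ l')) := by
        rw [hΩ, filter_filter, ← pow_add, show l' + (M - l') = M by omega]
        ext s
        simp only [mem_filter]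
        rw [hmm l l' s hll, hmm m l s hl.1.le]
        tauto
      rw [e1, card_mod (10 ^ l') (fun t => (t % 10 ^ l % 10 ^ m = u ∧ Good w m (t % 10 ^ l)) ∧
        Good w m t) (10 ^ (M - l'))]
      have e4 : ((range (10 ^ l')).filter (fun t => (t % 10 ^ l % 10 ^ m = u ∧ Good w m (t % 10 ^ l)) ∧
          Good w m t)).card ≤ ⌊C * 10 ^ j / ((j : ℝ) + 1)⌋₊ * (B l).card := by
        have e5 : 10 ^ l' = 10 ^ l * 10 ^ j := by rw [← pow_add, hj, show l + (l' - l) = l' by omega]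
        rw [e5, hB]
        refine card_fib (fun t => t % 10 ^ m = u ∧ Good w m t) (Good w m) ?_
        intro t _ _
        apply Nat.le_floor
        refine le_trans ?_ (hsieve (m + l) (w + 10 ^ m * t) j (by omega) (by omega))
        apply Nat.cast_le.2
        apply card_le_card
        intro r hr
        rw [mem_filter] at hr ⊢
        refine ⟨hr.1, ?_⟩
        have e6 := hr.2.1
        have e7 : w + 10 ^ m * t + 10 ^ (m + l) * r = w + 10 ^ m * (t + 10 ^ l * r) := by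
          rw [pow_add]; ring
        rw [e7]
        exact e6
      have e8 : ((⌊C * 10 ^ j / ((j : ℝ) + 1)⌋₊ : ℕ) : ℝ) ≤ C * 10 ^ j / ((j : ℝ) + 1) :=
        Nat.floor_le (by positivity)
      push_cast
      calc (10 : ℝ) ^ (M - l') * (((range (10 ^ l')).filter (fun t => (t % 10 ^ l % 10 ^ m = u ∧
            Good w m (t % 10 ^ l)) ∧ Good w m t)).card : ℝ)
          ≤ (10 : ℝ) ^ (M - l') * ((⌊C * 10 ^ j / ((j : ℝ) + 1)⌋₊ * (B l).card : ℕ) : ℝ) := by
            gcongr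
        _ ≤ (10 : ℝ) ^ (M - l') * (C * 10 ^ j / ((j : ℝ) + 1) * (B l).card) := by
            push_cast
            gcongr
        _ = (10 : ℝ) ^ M / 10 ^ l * (B l).card * (C / ((j : ℝ) + 1)) := by
            have e9 : (10 : ℝ) ^ M = 10 ^ (M - l') * 10 ^ j * 10 ^ l := by
              rw [← pow_add, ← pow_add]
              congr 1
              omega
            rw [e9]
            field_simp
        _ = _ := by rw [hj]
  -- the second moment
  have h3 := second (Ω := Ω) (I := Ioc m M) (A := fun l s => Good w m (s % 10 ^ l))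
    (g := fun l => (10 : ℝ) ^ M / 10 ^ l * (B l).card) (κ := fun j => C / ((j : ℝ) + 1))
    (S := C * (1 + Real.log ((M : ℕ) + 1))) (N := M + 1) hg (fun j => by positivity) h2
    (fun l hl => by rw [mem_Ioc] at hl; omega) (by
      have e1 : ∑ j ∈ range (M + 1), C / ((j : ℝ) + 1) = C * ((harmonic (M + 1) : ℚ) : ℝ) := by
        rw [harmonic]
        push_cast
        rw [mul_sum]
        refine sum_congr rfl fun j _ => ?_
        rw [div_eq_mul_inv]
      rw [e1]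
      refine mul_le_mul_of_nonneg_left ?_ (by linarith)
      have := harmonic_le_one_add_log (M + 1)
      push_cast at this
      exact this)
  -- the first moment
  have h4 : c / 10 * 10 ^ M / 10 ^ m ≤ ∑ l ∈ Ioc m M, (10 : ℝ) ^ M / 10 ^ l * (B l).card := by
    obtain ⟨z, hz⟩ : ∃ z : ℕ, z = 10 ^ (32 * m) := ⟨_, rfl⟩
    have hzz : z0 ≤ z := by
      rw [hz]
      calc z0 ≤ m := by omega
        _ ≤ 32 * m := by omega
        _ ≤ 10 ^ (32 * m) := (Nat.lt_pow_self (by norm_num)).le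
    have hqz : (10 ^ (2 * m)) ^ 16 ≤ z := by
      rw [hz, ← pow_mul]
      exact Nat.pow_le_pow_right (by norm_num) (by omega)
    obtain ⟨a, ha⟩ : ∃ a : ℕ, a = w + 10 ^ m * u := ⟨_, rfl⟩
    have haq : a < 10 ^ (2 * m) := by
      rw [ha]
      calc w + 10 ^ m * u < 10 ^ m + 10 ^ m * u := by omega
        _ = 10 ^ m * (u + 1) := by ring
        _ ≤ 10 ^ m * 10 ^ m := Nat.mul_le_mul_left _ hu
        _ = 10 ^ (2 * m) := by rw [← pow_add]; congr 1; omega
    have hac : a.Coprime (10 ^ (2 * m)) := by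
      apply Nat.Coprime.pow_right
      rw [ha]
      obtain ⟨m', rfl⟩ : ∃ m', m = m' + 1 := ⟨m - 1, by omega⟩
      rw [pow_succ, show w + 10 ^ m' * 10 * u = w + 10 * (10 ^ m' * u) by ring]
      exact (Nat.coprime_add_mul_left_left w 10 _).2 hwc
    have h5 := hlin z hzz (2 * m) a hqz hac
    obtain ⟨P, hP⟩ : ∃ P : Finset ℕ, P = (Ioc z (z ^ K)).filter
      (fun p => p.Prime ∧ p ≡ a [MOD 10 ^ (2 * m)]) := ⟨_, rfl⟩
    rw [← hP] at h5
    have hPm : ∀ p ∈ P, Nat.log 10 p + 1 - m ∈ Ioc m M ∧ p / 10 ^ m ∈ B (Nat.log 10 p + 1 - m) ∧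
        w + 10 ^ m * (p / 10 ^ m) = p ∧ m ≤ Nat.log 10 p ∧ 0 < p := by
      intro p hp
      rw [hP, mem_filter, mem_Ioc] at hp
      obtain ⟨⟨hp1, hp2⟩, hp3, hp4⟩ := hp
      have e1 : 32 * m ≤ Nat.log 10 p := by
        apply Nat.le_log_of_pow_le (by norm_num)
        rw [← hz]; exact hp1.le
      have e2 : Nat.log 10 p ≤ M := by
        have : p ≤ 10 ^ M := by
          refine hp2.trans (le_of_eq ?_)
          rw [hz, ← pow_mul, hM]
          congr 1
          ring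
        calc Nat.log 10 p ≤ Nat.log 10 (10 ^ M) := Nat.log_mono_right this
          _ = M := Nat.log_pow (by norm_num) M
      have e3 : p % 10 ^ (2 * m) = a := by
        have : p % 10 ^ (2 * m) = a % 10 ^ (2 * m) := hp4
        rw [this, Nat.mod_eq_of_lt haq]
      have e4 : p % 10 ^ m = w := by
        rw [← hmm m (2 * m) p (by omega), e3, ha, Nat.add_mul_mod_self_left, Nat.mod_eq_of_lt hw]
      have e5 : p / 10 ^ m % 10 ^ m = u := by
        rw [← Nat.mod_mul_right_div_self, ← pow_add, show m + m = 2 * m by ring, e3, ha,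
          Nat.add_mul_div_left _ _ (by positivity), Nat.div_eq_of_lt hw, zero_add]
      have e6 : w + 10 ^ m * (p / 10 ^ m) = p := by
        conv_rhs => rw [← Nat.mod_add_div p (10 ^ m), e4]
      refine ⟨?_, ?_, e6, by omega, hp3.pos⟩
      · rw [mem_Ioc]; omega
      · rw [hB]
        simp only [mem_filter, mem_range]
        refine ⟨?_, e5, ?_, ?_⟩
        · apply Nat.div_lt_of_lt_mul
          rw [← pow_add, show m + (Nat.log 10 p + 1 - m) = Nat.log 10 p + 1 by omega]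
          exact Nat.lt_pow_succ_log_self (by norm_num) p
        · rw [e6]; exact hp3
        · rw [e6, ← hz]; exact hp1
    have h6 : ∑ p ∈ P, (10 : ℝ) ^ M / 10 ^ (Nat.log 10 p + 1 - m) ≤
        ∑ l ∈ Ioc m M, (10 : ℝ) ^ M / 10 ^ l * (B l).card := by
      rw [← sum_fiberwise_of_maps_to (g := fun p => Nat.log 10 p + 1 - m) (t := Ioc m M)
        (fun p hp => (hPm p hp).1)]
      refine sum_le_sum fun l hl => ?_
      have e1 : ∑ p ∈ P.filter (fun p => Nat.log 10 p + 1 - m = l),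
          (10 : ℝ) ^ M / 10 ^ (Nat.log 10 p + 1 - m) =
          (10 : ℝ) ^ M / 10 ^ l * (P.filter (fun p => Nat.log 10 p + 1 - m = l)).card := by
        rw [sum_congr rfl (g := fun _ => (10 : ℝ) ^ M / 10 ^ l)]
        · rw [sum_const, nsmul_eq_mul, mul_comm]
        · intro p hp
          rw [mem_filter] at hp
          rw [hp.2]
      rw [e1]
      refine mul_le_mul_of_nonneg_left ?_ (by positivity)
      apply Nat.cast_le.2
      apply card_le_card_of_injOn (fun p => p / 10 ^ m)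
      · intro p hp
        simp only [coe_filter, Set.mem_ofPred_eq] at hp
        have := (hPm p hp.1).2.1
        rw [hp.2] at this
        exact this
      · intro p hp p' hp' hpp
        simp only [coe_filter, Set.mem_ofPred_eq] at hp hp'
        have e2 := (hPm p hp.1).2.2.1
        have e3 := (hPm p' hp'.1).2.2.1
        simp only at hpp
        rw [← e2, ← e3, hpp]
    have h7 : ∀ p ∈ P, (10 : ℝ) ^ M * 10 ^ m / 10 * (1 / p) ≤
        (10 : ℝ) ^ M / 10 ^ (Nat.log 10 p + 1 - m) := by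
      intro p hp
      obtain ⟨-, -, -, e1, e2⟩ := hPm p hp
      have hp0 : (0 : ℝ) < p := by exact_mod_cast e2
      have e3 : (10 : ℝ) ^ (Nat.log 10 p + 1 - m) * 10 ^ m ≤ 10 * p := by
        have e4 : 10 ^ Nat.log 10 p ≤ p := Nat.pow_log_le_self 10 e2.ne'
        have e5 : 10 ^ (Nat.log 10 p + 1 - m) * 10 ^ m ≤ 10 * p := by
          rw [← pow_add, show Nat.log 10 p + 1 - m + m = Nat.log 10 p + 1 by omega, pow_succ]
          omega
        exact_mod_cast e5
      rw [mul_one_div, div_div, div_le_div_iff₀ (by positivity) (by positivity)]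
      calc (10 : ℝ) ^ M * 10 ^ m * 10 ^ (Nat.log 10 p + 1 - m)
          = 10 ^ M * (10 ^ (Nat.log 10 p + 1 - m) * 10 ^ m) := by ring
        _ ≤ 10 ^ M * (10 * p) := mul_le_mul_of_nonneg_left e3 (by positivity)
    have h8 : (10 : ℝ) ^ M * 10 ^ m / 10 * (c / ((10 ^ (2 * m)).totient : ℝ)) ≤
        ∑ l ∈ Ioc m M, (10 : ℝ) ^ M / 10 ^ l * (B l).card := by
      calc (10 : ℝ) ^ M * 10 ^ m / 10 * (c / ((10 ^ (2 * m)).totient : ℝ))
          ≤ (10 : ℝ) ^ M * 10 ^ m / 10 * ∑ p ∈ P, (1 : ℝ) / p :=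
            mul_le_mul_of_nonneg_left h5 (by positivity)
        _ = ∑ p ∈ P, (10 : ℝ) ^ M * 10 ^ m / 10 * (1 / p) := by rw [mul_sum]
        _ ≤ ∑ p ∈ P, (10 : ℝ) ^ M / 10 ^ (Nat.log 10 p + 1 - m) := sum_le_sum h7
        _ ≤ _ := h6
    refine le_trans ?_ h8
    have e1 : ((10 ^ (2 * m)).totient : ℝ) ≤ 10 ^ m * 10 ^ m := by
      rw [← pow_add, show m + m = 2 * m by ring]
      exact_mod_cast Nat.totient_le (10 ^ (2 * m))
    have e2 : (0 : ℝ) < ((10 ^ (2 * m)).totient : ℝ) := by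
      exact_mod_cast Nat.totient_pos.2 (by positivity)
    calc c / 10 * 10 ^ M / 10 ^ m = (10 : ℝ) ^ M * 10 ^ m / 10 * (c / (10 ^ m * 10 ^ m)) := by
          field_simp
      _ ≤ _ := by gcongr
  -- conclusion
  have h9 : ((Ω.filter (fun s => ∃ l ∈ Ioc m M, Good w m (s % 10 ^ l))).card : ℝ) ≤ F.card := by
    apply Nat.cast_le.2
    apply card_le_card
    intro s hs
    rw [mem_filter, hΩ, mem_filter, mem_range] at hs
    refine hF s hs.1.1 hs.1.2 ?_
    unfold Ev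
    rw [← hM]
    exact hs.2
  have h10 : (0 : ℝ) ≤ 1 + Real.log ((M : ℕ) + 1) := by
    have : 0 ≤ Real.log (((M : ℕ) : ℝ) + 1) := Real.log_nonneg (by
      have : (0 : ℝ) ≤ (M : ℕ) := Nat.cast_nonneg _
      linarith)
    linarith
  have h11 : c / 10 * 10 ^ M / 10 ^ m ≤ 2 * (C * (1 + Real.log ((M : ℕ) + 1))) * (F.card : ℝ) :=
    (h4.trans h3).trans (by gcongr)
  have hC0 : (0 : ℝ) < C := by linarith
  calc c / (20 * C) * (10 : ℝ) ^ M / 10 ^ m = (c / 10 * 10 ^ M / 10 ^ m) / (2 * C) := by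
        field_simp
        norm_num
    _ ≤ (2 * (C * (1 + Real.log ((M : ℕ) + 1))) * (F.card : ℝ)) / (2 * C) := by gcongr
    _ = (1 + Real.log ((M : ℕ) + 1)) * (F.card : ℝ) := by field_simp

end Pool.Agent.H77.TO
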