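import Mathlib
import Pool.Agent.H77.TO.Cnt

/-!
# The second moment of a sum of indicators
-/

set_option autoImplicit false

namespace Pool.Agent.H77.TO

open Finset

theorem sq_moment {Ω I : Finset ℕ} {A : ℕ → ℕ → Prop} [∀ l s, Decidable (A l s)] {κ : ℕ → ℝ}
    {T α β S : ℝ} {N : ℕ} (hT : 0 ≤ T) (hα : 0 ≤ α) (hβ : 0 ≤ β) (hκ : ∀ j, 0 ≤ κ j)
    (h2 : ∀ l ∈ I, ∀ l' ∈ I, l ≤ l' →
      ((Ω.filter (fun s => A l s ∧ A l' s)).card : ℝ) ≤ T * (α + β * κ (l' - l)))
    (hI : ∀ l ∈ I, l < N) (hS : ∑ j ∈ range N, κ j ≤ S) :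
    ∑ s ∈ Ω, (((I.filter (fun l => A l s)).card : ℝ)) ^ 2 ≤
      2 * (T * (I.card * (I.card * α + β * S))) := by
  classical
  have e1 : ∀ s, (((I.filter (fun l => A l s)).card : ℝ)) ^ 2 =
      ∑ l ∈ I, ∑ l' ∈ I, if A l s ∧ A l' s then (1 : ℝ) else 0 := by
    intro s
    have e0 : ((I.filter (fun l => A l s)).card : ℝ) = ∑ l ∈ I, if A l s then (1 : ℝ) else 0 := by
      rw [sum_boole]
    rw [e0, sq, sum_mul_sum]
    refine sum_congr rfl fun l _ => sum_congr rfl fun l' _ => ?_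
    by_cases ha : A l s <;> by_cases hb : A l' s <;> simp [ha, hb]
  have e2 : ∑ s ∈ Ω, (((I.filter (fun l => A l s)).card : ℝ)) ^ 2 =
      ∑ l ∈ I, ∑ l' ∈ I, ((Ω.filter (fun s => A l s ∧ A l' s)).card : ℝ) := by
    rw [sum_congr rfl fun s _ => e1 s, sum_comm]
    refine sum_congr rfl fun l hl => ?_
    rw [sum_comm]
    refine sum_congr rfl fun l' hl' => ?_
    rw [sum_boole]
  rw [e2]
  obtain ⟨h, hh⟩ : ∃ h : ℕ → ℕ → ℝ, h = fun l l' => if l ≤ l' then T * (α + β * κ (l' - l)) else 0 :=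
    ⟨_, rfl⟩
  have h0 : ∀ l l', 0 ≤ h l l' := by
    intro l l'
    rw [hh]
    simp only
    split_ifs
    · have := hκ (l' - l)
      positivity
    · exact le_rfl
  have e3 : ∀ l ∈ I, ∀ l' ∈ I, ((Ω.filter (fun s => A l s ∧ A l' s)).card : ℝ) ≤ h l l' + h l' l := by
    intro l hl l' hl'
    rcases le_total l l' with hle | hle
    · have := h2 l hl l' hl' hle
      have e4 : h l l' = T * (α + β * κ (l' - l)) := by rw [hh]; simp [hle]
      have := h0 l' l
      linarith
    · have h5 := h2 l' hl' l hl hle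
      have e4 : h l' l = T * (α + β * κ (l - l')) := by rw [hh]; simp [hle]
      have e5 : (Ω.filter (fun s => A l s ∧ A l' s)) = (Ω.filter (fun s => A l' s ∧ A l s)) := by
        ext s; simp only [mem_filter]; tauto
      have := h0 l l'
      rw [e5]
      linarith
  have e6 : ∑ l ∈ I, ∑ l' ∈ I, h l l' ≤ T * (I.card * (I.card * α + β * S)) := by
    have e7 : ∀ l ∈ I, ∑ l' ∈ I, h l l' ≤ T * (I.card * α + β * S) := by
      intro l hl
      have e8 : ∑ l' ∈ I, h l l' = ∑ l' ∈ I.filter (fun l' => l ≤ l'), T * (α + β * κ (l' - l)) := by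
        rw [sum_filter, hh]
      rw [e8, ← mul_sum, sum_add_distrib, ← mul_sum]
      refine mul_le_mul_of_nonneg_left ?_ hT
      have e9 : ∑ _l' ∈ I.filter (fun l' => l ≤ l'), α ≤ I.card * α := by
        rw [sum_const, nsmul_eq_mul]
        refine mul_le_mul_of_nonneg_right ?_ hα
        exact_mod_cast card_filter_le _ _
      have e10 : ∑ l' ∈ I.filter (fun l' => l ≤ l'), κ (l' - l) ≤ S := by
        have hinj : Set.InjOn (fun l' : ℕ => l' - l) (I.filter (fun l' => l ≤ l') : Finset ℕ) := by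
          intro a ha b hb hab
          simp only [coe_filter, Set.mem_ofPred_eq] at ha hb
          simp only at hab
          omega
        rw [← sum_image (f := fun j => κ j) (g := fun l' : ℕ => l' - l) hinj]
        refine le_trans ?_ hS
        apply sum_le_sum_of_subset_of_nonneg
        · intro j hj
          rw [mem_image] at hj
          obtain ⟨l', hl', rfl⟩ := hj
          rw [mem_filter] at hl'
          rw [mem_range]
          have := hI l' hl'.1
          omega
        · intro j _ _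
          exact hκ j
      have := mul_le_mul_of_nonneg_left e10 hβ
      linarith
    calc ∑ l ∈ I, ∑ l' ∈ I, h l l' ≤ ∑ l ∈ I, T * (I.card * α + β * S) := sum_le_sum e7
      _ = T * (I.card * (I.card * α + β * S)) := by
        rw [sum_const, nsmul_eq_mul]; ring
  calc ∑ l ∈ I, ∑ l' ∈ I, ((Ω.filter (fun s => A l s ∧ A l' s)).card : ℝ)
      ≤ ∑ l ∈ I, ∑ l' ∈ I, (h l l' + h l' l) :=
        sum_le_sum fun l hl => sum_le_sum fun l' hl' => e3 l hl l' hl'
    _ = ∑ l ∈ I, ∑ l' ∈ I, h l l' + ∑ l ∈ I, ∑ l' ∈ I, h l' l := by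
        rw [← sum_add_distrib]
        exact sum_congr rfl fun l _ => sum_add_distrib
    _ = 2 * ∑ l ∈ I, ∑ l' ∈ I, h l l' := by
        rw [sum_comm (f := fun l l' => h l' l)]; ring
    _ ≤ _ := by linarith

end Pool.Agent.H77.TO
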