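import Pool.Agent.H77.TO.Sv
import Pool.Agent.H77.TO.Mom
import Pool.Agent.H7.TO.LINB
import Pool.Agent.H43.TO.AVG

/-!
# One block of lengths: first and second moment
-/

set_option autoImplicit false

namespace Pool.Agent.H77.TO

open Finset

/-- the number of primes in a block -/
noncomputable def Xf (b K w m s : ℕ) : ℝ :=
  (((Ioc (2 * m) (32 * K * m)).filter (fun l => (w + b ^ m * (s % b ^ l)).Prime)).card : ℝ)

theorem block2 (b : ℕ) (hb : 2 ≤ b) : ∃ (K : ℕ) (c C : ℝ), 1 ≤ K ∧ 0 < c ∧ 0 < C ∧ ∃ m0 : ℕ, 1 ≤ m0 ∧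
    ∀ m : ℕ, m0 ≤ m → ∀ w u M : ℕ, w < b ^ m → w.Coprime b → u < b ^ m → 32 * K * m ≤ M →
    c * (b : ℝ) ^ M / b ^ m ≤ ∑ s ∈ (range (b ^ M)).filter (fun s => s % b ^ m = u), Xf b K w m s ∧
    ∑ s ∈ (range (b ^ M)).filter (fun s => s % b ^ m = u), Xf b K w m s ≤ C * (b : ℝ) ^ M / b ^ m ∧
    ∑ s ∈ (range (b ^ M)).filter (fun s => s % b ^ m = u), (Xf b K w m s) ^ 2 ≤
      C * (b : ℝ) ^ M / b ^ m := by
  classical
  obtain ⟨K, c, hK, hc, z0, hlin⟩ := Pool.Agent.H7.TO.linb b hb
  obtain ⟨C1, hC1, hsieve⟩ := sieveb b hb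
  obtain ⟨C2, hC2, hpair⟩ := pairb b hb
  obtain ⟨C3, hC3, havg⟩ := Pool.Agent.H43.TO.avg
  have hb0 : (0 : ℝ) < b := by exact_mod_cast (by omega : 0 < b)
  have hK0 : (0 : ℝ) < K := by exact_mod_cast hK
  have hC10 : (0 : ℝ) < C1 := by linarith
  have hC20 : (0 : ℝ) < C2 := by linarith
  refine ⟨K, c / b, 32 * K * C1 + 2 * (1024 * K ^ 2 * (C2 * C3) + 64 * K * C1), hK, by positivity,
    by positivity, z0 + 1, by omega, ?_⟩
  intro m hm w u M hw hwc hu hM
  have hm1 : 1 ≤ m := by omega
  have hm0 : (0 : ℝ) < m := by exact_mod_cast hm1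
  have hmM : m ≤ M := by
    refine le_trans ?_ hM
    exact Nat.le_mul_of_pos_left _ (by positivity)
  obtain ⟨I, hI⟩ : ∃ I : Finset ℕ, I = Ioc (2 * m) (32 * K * m) := ⟨_, rfl⟩
  have hIm : ∀ l ∈ I, 2 * m < l ∧ l ≤ M := by
    intro l hl
    rw [hI, mem_Ioc] at hl
    omega
  have hIc : (I.card : ℝ) ≤ 32 * K * m := by
    rw [hI, Nat.card_Ioc]
    have : 32 * K * m - 2 * m ≤ 32 * K * m := Nat.sub_le _ _
    exact_mod_cast this
  obtain ⟨B, hB⟩ : ∃ B : ℕ → Finset ℕ,
    B = fun l => (range (b ^ l)).filter (fun t => t % b ^ m = u ∧ (w + b ^ m * t).Prime) := ⟨_, rfl⟩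
  obtain ⟨Ω, hΩ⟩ : ∃ Ω : Finset ℕ, Ω = (range (b ^ M)).filter (fun s => s % b ^ m = u) := ⟨_, rfl⟩
  obtain ⟨T, hT⟩ : ∃ T : ℝ, T = (b : ℝ) ^ M / b ^ m := ⟨_, rfl⟩
  have hT0 : 0 < T := by rw [hT]; positivity
  have hmm : ∀ l l' s : ℕ, l ≤ l' → s % b ^ l' % b ^ l = s % b ^ l := fun l l' s h =>
    Nat.mod_mod_of_dvd s (pow_dvd_pow b h)
  have hg : ∀ l ∈ I, ((Ω.filter (fun s => (w + b ^ m * (s % b ^ l)).Prime)).card : ℝ) =
      (b : ℝ) ^ M / b ^ l * (B l).card := by
    intro l hl
    obtain ⟨hl1, hl2⟩ := hIm l hl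
    have e1 : Ω.filter (fun s => (w + b ^ m * (s % b ^ l)).Prime) =
        (range (b ^ l * b ^ (M - l))).filter
        (fun s => (s % b ^ l) % b ^ m = u ∧ (w + b ^ m * (s % b ^ l)).Prime) := by
      rw [hΩ, filter_filter, ← pow_add, show l + (M - l) = M by omega]
      ext s
      simp only [mem_filter]
      rw [hmm m l s (by omega)]
    rw [e1, card_mod (b ^ l) (fun t => t % b ^ m = u ∧ (w + b ^ m * t).Prime) (b ^ (M - l)), hB]
    push_cast
    congr 1
    rw [eq_div_iff (by positivity), ← pow_add, show M - l + l = M by omega]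
  have hBc : ∀ l ∈ I, ((B l).card : ℝ) ≤ C1 / m * b ^ (l - m) := by
    intro l hl
    obtain ⟨hl1, hl2⟩ := hIm l hl
    have e2 : (B l).card ≤ ⌊C1 * b ^ (l - m) / (((l - m : ℕ) : ℝ) + 1)⌋₊ := by
      have e5 : b ^ l = b ^ m * b ^ (l - m) := by rw [← pow_add]; congr 1; omega
      have e6 := card_fib (a := b ^ m) (b := b ^ (l - m))
        (D := ⌊C1 * b ^ (l - m) / (((l - m : ℕ) : ℝ) + 1)⌋₊) (fun t => t = u)
        (fun t => (w + b ^ m * t).Prime) (by
          intro t _ _
          apply Nat.le_floor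
          refine le_trans ?_ (hsieve (2 * m) (w + b ^ m * t) (l - m) (by omega) (by omega))
          apply Nat.cast_le.2
          apply card_le_card
          intro r hr
          rw [mem_filter] at hr ⊢
          refine ⟨hr.1, ?_⟩
          have e7 : w + b ^ m * t + b ^ (2 * m) * r = w + b ^ m * (t + b ^ m * r) := by
            rw [show 2 * m = m + m by ring, pow_add]; ring
          rw [e7]
          exact hr.2)
      rw [← e5] at e6
      have e8 : ((range (b ^ m)).filter (fun t => t = u)).card = 1 := by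
        rw [filter_eq', if_pos (mem_range.2 hu), card_singleton]
      rw [e8, mul_one] at e6
      rw [hB]
      exact e6
    refine le_trans (Nat.cast_le.2 e2) ((Nat.floor_le (by positivity)).trans ?_)
    rw [div_mul_eq_mul_div]
    apply div_le_div_of_nonneg_left (by positivity) hm0
    have : m ≤ l - m + 1 := by omega
    exact_mod_cast this
  have hg1 : ∀ l ∈ I, ((Ω.filter (fun s => (w + b ^ m * (s % b ^ l)).Prime)).card : ℝ) ≤ T * (C1 / m) := by
    intro l hl
    obtain ⟨hl1, hl2⟩ := hIm l hl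
    rw [hg l hl]
    calc (b : ℝ) ^ M / b ^ l * (B l).card ≤ (b : ℝ) ^ M / b ^ l * (C1 / m * b ^ (l - m)) :=
          mul_le_mul_of_nonneg_left (hBc l hl) (by positivity)
      _ = T * (C1 / m) := by
          have e9 : (b : ℝ) ^ l = b ^ (l - m) * b ^ m := by rw [← pow_add]; congr 1; omega
          rw [hT, e9]
          field_simp
  have h2 : ∀ l ∈ I, ∀ l' ∈ I, l ≤ l' →
      ((Ω.filter (fun s => (w + b ^ m * (s % b ^ l)).Prime ∧ (w + b ^ m * (s % b ^ l')).Prime)).card : ℝ) ≤
      T * (C2 * C3 / m ^ 2 + C1 / m * (1 / 2 : ℝ) ^ (l' - l)) := by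
    intro l hl l' hl' hll
    rcases hll.eq_or_lt with rfl | hlt
    · have e2 : Ω.filter (fun s => (w + b ^ m * (s % b ^ l)).Prime ∧ (w + b ^ m * (s % b ^ l)).Prime) =
          Ω.filter (fun s => (w + b ^ m * (s % b ^ l)).Prime) := by
        ext s; simp only [mem_filter]; tauto
      rw [e2]
      refine (hg1 l hl).trans ?_
      refine mul_le_mul_of_nonneg_left ?_ hT0.le
      rw [Nat.sub_self, pow_zero, mul_one]
      have : 0 ≤ C2 * C3 / (m : ℝ) ^ 2 := by positivity
      linarith
    · obtain ⟨hl1, hl2⟩ := hIm l hl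
      obtain ⟨hl3, hl4⟩ := hIm l' hl'
      obtain ⟨j, hj⟩ : ∃ j : ℕ, j = l' - l := ⟨_, rfl⟩
      have e1 : Ω.filter (fun s => (w + b ^ m * (s % b ^ l)).Prime ∧ (w + b ^ m * (s % b ^ l')).Prime) =
          (range (b ^ l' * b ^ (M - l'))).filter
          (fun s => ((s % b ^ l') % b ^ l) % b ^ m = u ∧ (w + b ^ m * ((s % b ^ l') % b ^ l)).Prime ∧
            (w + b ^ m * (s % b ^ l')).Prime) := by
        rw [hΩ, filter_filter, ← pow_add, show l' + (M - l') = M by omega]
        ext s
        simp only [mem_filter]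
        rw [hmm l l' s hll, hmm m l s (by omega)]
      rw [e1, card_mod (b ^ l') (fun t => t % b ^ l % b ^ m = u ∧ (w + b ^ m * (t % b ^ l)).Prime ∧
        (w + b ^ m * t).Prime) (b ^ (M - l'))]
      obtain ⟨Y, hY⟩ : ∃ Y : Finset ℕ, Y = (range (b ^ l')).filter (fun t => t % b ^ l % b ^ m = u ∧
        (w + b ^ m * (t % b ^ l)).Prime ∧ (w + b ^ m * t).Prime) := ⟨_, rfl⟩
      rw [← hY]
      have e3 : ∀ r : ℕ, (Y.filter (fun t => t / b ^ l = r)).card ≤
          ((range (b ^ l)).filter (fun t => t % b ^ m = u ∧ (w + b ^ m * t).Prime ∧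
            (w + b ^ m * (t + b ^ l * r)).Prime)).card := by
        intro r
        apply card_le_card_of_injOn (fun t => t % b ^ l)
        · intro t ht
          simp only [hY, coe_filter, mem_filter, mem_range, Set.mem_ofPred_eq] at ht ⊢
          obtain ⟨⟨-, h3, h4, h5⟩, h6⟩ := ht
          refine ⟨Nat.mod_lt _ (by positivity), h3, h4, ?_⟩
          rw [← h6, Nat.mod_add_div]
          exact h5
        · intro t ht t' ht' htt
          simp only [coe_filter, Set.mem_ofPred_eq] at ht ht'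
          simp only at htt
          rw [← Nat.mod_add_div t (b ^ l), ← Nat.mod_add_div t' (b ^ l), ht.2, ht'.2, htt]
      have e4 : Y.card = ∑ r ∈ range (b ^ j), (Y.filter (fun t => t / b ^ l = r)).card := by
        apply card_eq_sum_card_fiberwise
        intro t ht
        simp only [hY, coe_filter, mem_range, Set.mem_ofPred_eq] at ht
        simp only [coe_range, Set.mem_Iio]
        apply Nat.div_lt_of_lt_mul
        rw [← pow_add, hj, show l + (l' - l) = l' by omega]
        exact ht.1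
      have e5 : (Y.card : ℝ) ≤ C1 / m * b ^ (l - m) + C2 * C3 / m ^ 2 * b ^ (l - m) * b ^ j := by
        rw [e4, ← Nat.sub_add_cancel (show 1 ≤ b ^ j from Nat.one_le_pow _ _ (by omega)),
          sum_range_succ']
        push_cast
        rw [add_comm]
        apply add_le_add
        · refine le_trans ?_ (hBc l hl)
          apply Nat.cast_le.2
          refine (e3 0).trans ?_
          rw [hB]
          apply card_le_card
          intro t ht
          simp only [mem_filter] at ht ⊢
          exact ⟨ht.1, ht.2.1, ht.2.2.1⟩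
        · have e6 : ∀ r ∈ range (b ^ j - 1), ((Y.filter (fun t => t / b ^ l = r + 1)).card : ℝ) ≤
              C2 * (b ^ (l - m) / (m : ℝ) ^ 2) * ((((r + 1 : ℕ)) : ℝ) / Nat.totient (r + 1)) ^ 2 := by
            intro r _
            refine le_trans (Nat.cast_le.2 (e3 (r + 1))) ?_
            refine (hpair m l w u (r + 1) hm1 (by omega) hwc (by omega)).trans ?_
            have e7 : (b : ℝ) ^ (l - m) / ((l - m : ℕ) : ℝ) ^ 2 ≤ b ^ (l - m) / (m : ℝ) ^ 2 := by
              apply div_le_div_of_nonneg_left (by positivity) (by positivity)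
              have : (m : ℝ) ≤ ((l - m : ℕ) : ℝ) := by exact_mod_cast (by omega : m ≤ l - m)
              gcongr
            calc C2 * ((((r + 1 : ℕ)) : ℝ) / Nat.totient (r + 1)) ^ 2 *
                  (b ^ (l - m) / ((l - m : ℕ) : ℝ) ^ 2) ≤
                  C2 * ((((r + 1 : ℕ)) : ℝ) / Nat.totient (r + 1)) ^ 2 * (b ^ (l - m) / (m : ℝ) ^ 2) :=
                  mul_le_mul_of_nonneg_left e7 (by positivity)
              _ = _ := by ring
          refine (sum_le_sum e6).trans ?_
          rw [← mul_sum]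
          have e8 : ∑ r ∈ range (b ^ j - 1), ((((r + 1 : ℕ)) : ℝ) / Nat.totient (r + 1)) ^ 2 ≤
              C3 * (b : ℝ) ^ j := by
            have e9 := havg (b ^ j)
            push_cast at e9
            refine le_trans ?_ e9
            have e10 : ∑ r ∈ range (b ^ j - 1), ((((r + 1 : ℕ)) : ℝ) / Nat.totient (r + 1)) ^ 2 =
                ∑ r ∈ (range (b ^ j - 1)).image (fun r : ℕ => r + 1), ((r : ℝ) / (Nat.totient r : ℝ)) ^ 2 := by
              rw [sum_image (by intro x _ y _ hxy; simpa using hxy)]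
            rw [e10]
            apply sum_le_sum_of_subset_of_nonneg
            · intro r hr
              rw [mem_image] at hr
              obtain ⟨r', hr', rfl⟩ := hr
              rw [mem_range] at hr'
              rw [mem_Icc]
              omega
            · intro r _ _
              positivity
          calc C2 * (b ^ (l - m) / (m : ℝ) ^ 2) *
                ∑ r ∈ range (b ^ j - 1), ((((r + 1 : ℕ)) : ℝ) / Nat.totient (r + 1)) ^ 2
              ≤ C2 * (b ^ (l - m) / (m : ℝ) ^ 2) * (C3 * (b : ℝ) ^ j) :=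
                mul_le_mul_of_nonneg_left e8 (by positivity)
            _ = C2 * C3 / m ^ 2 * b ^ (l - m) * b ^ j := by ring
      have e11 : (b : ℝ) ^ (M - l') * (b ^ (l - m) * b ^ j) = T := by
        rw [hT, eq_div_iff (by positivity), ← pow_add, ← pow_add, ← pow_add]
        congr 1
        omega
      have e12 : (1 : ℝ) ≤ (1 / 2) ^ j * b ^ j := by
        rw [← mul_pow]
        apply one_le_pow₀
        have : (2 : ℝ) ≤ b := by exact_mod_cast hb
        linarith
      push_cast
      rw [← hj]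
      calc (b : ℝ) ^ (M - l') * (Y.card : ℝ)
          ≤ (b : ℝ) ^ (M - l') * (C1 / m * b ^ (l - m) + C2 * C3 / m ^ 2 * b ^ (l - m) * b ^ j) :=
            mul_le_mul_of_nonneg_left e5 (by positivity)
        _ ≤ (b : ℝ) ^ (M - l') * (C1 / m * b ^ (l - m) * ((1 / 2) ^ j * b ^ j) +
              C2 * C3 / m ^ 2 * b ^ (l - m) * b ^ j) := by
            refine mul_le_mul_of_nonneg_left ?_ (by positivity)
            have := mul_le_mul_of_nonneg_left e12 (show 0 ≤ C1 / m * (b : ℝ) ^ (l - m) by positivity)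
            linarith
        _ = ((b : ℝ) ^ (M - l') * (b ^ (l - m) * b ^ j)) *
              (C2 * C3 / m ^ 2 + C1 / m * (1 / 2 : ℝ) ^ j) := by ring
        _ = T * (C2 * C3 / m ^ 2 + C1 / m * (1 / 2 : ℝ) ^ j) := by rw [e11]
  -- sums
  have hsumX : ∑ s ∈ Ω, Xf b K w m s =
      ∑ l ∈ I, ((Ω.filter (fun s => (w + b ^ m * (s % b ^ l)).Prime)).card : ℝ) := by
    have e1 : ∀ s, Xf b K w m s = ∑ l ∈ I, if (w + b ^ m * (s % b ^ l)).Prime then (1 : ℝ) else 0 := by
      intro s
      unfold Xf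
      rw [← hI, sum_boole]
    rw [sum_congr rfl fun s _ => e1 s, sum_comm]
    refine sum_congr rfl fun l _ => ?_
    rw [sum_boole]
  have hTc : ∀ y : ℝ, y * (b : ℝ) ^ M / b ^ m = y * T := fun y => by rw [hT]; ring
  have hup1 : ∑ s ∈ Ω, Xf b K w m s ≤ 32 * K * C1 * T := by
    rw [hsumX]
    calc ∑ l ∈ I, ((Ω.filter (fun s => (w + b ^ m * (s % b ^ l)).Prime)).card : ℝ)
        ≤ ∑ l ∈ I, T * (C1 / m) := sum_le_sum hg1
      _ = I.card * (T * (C1 / m)) := by rw [sum_const, nsmul_eq_mul]
      _ ≤ (32 * K * m) * (T * (C1 / m)) := mul_le_mul_of_nonneg_right hIc (by positivity)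
      _ = 32 * K * C1 * T := by field_simp
  have hup2 : ∑ s ∈ Ω, (Xf b K w m s) ^ 2 ≤ 2 * (1024 * K ^ 2 * (C2 * C3) + 64 * K * C1) * T := by
    have h3 := sq_moment (Ω := Ω) (I := I) (A := fun l s => (w + b ^ m * (s % b ^ l)).Prime)
      (κ := fun j => (1 / 2 : ℝ) ^ j) (T := T) (α := C2 * C3 / m ^ 2) (β := C1 / m) (S := 2) (N := M + 1)
      hT0.le (by positivity) (by positivity) (fun j => by positivity) h2
      (fun l hl => by have := hIm l hl; omega) (by
        have := geom_sum_eq (show (1 / 2 : ℝ) ≠ 1 by norm_num) (M + 1)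
        rw [this]
        have h4 : (0 : ℝ) ≤ (1 / 2) ^ (M + 1) := by positivity
        rw [div_le_iff_of_neg (by norm_num)]
        linarith)
    have e1 : ∑ s ∈ Ω, (Xf b K w m s) ^ 2 = ∑ s ∈ Ω,
        (((I.filter (fun l => (w + b ^ m * (s % b ^ l)).Prime)).card : ℝ)) ^ 2 := by
      refine sum_congr rfl fun s _ => ?_
      unfold Xf
      rw [← hI]
    rw [e1]
    refine h3.trans ?_
    have e2 : (I.card : ℝ) * (I.card * (C2 * C3 / m ^ 2) + C1 / m * 2) ≤
        (32 * K * m) * ((32 * K * m) * (C2 * C3 / m ^ 2) + C1 / m * 2) := by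
      gcongr
    calc 2 * (T * ((I.card : ℝ) * (I.card * (C2 * C3 / m ^ 2) + C1 / m * 2)))
        ≤ 2 * (T * ((32 * K * m) * ((32 * K * m) * (C2 * C3 / m ^ 2) + C1 / m * 2))) := by gcongr
      _ = 2 * (1024 * K ^ 2 * (C2 * C3) + 64 * K * C1) * T := by
          field_simp
          ring
  -- the lower bound for the first moment
  have hlow : c / b * T ≤ ∑ s ∈ Ω, Xf b K w m s := by
    rw [hsumX]
    have h4 : c / b * b ^ M / b ^ m ≤ ∑ l ∈ I, (b : ℝ) ^ M / b ^ l * (B l).card := by
      obtain ⟨z, hz⟩ : ∃ z : ℕ, z = b ^ (32 * m) := ⟨_, rfl⟩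
      have hzz : z0 ≤ z := by
        rw [hz]
        calc z0 ≤ m := by omega
          _ ≤ 32 * m := by omega
          _ ≤ b ^ (32 * m) := (Nat.lt_pow_self (by omega)).le
      have hqz : (b ^ (2 * m)) ^ 16 ≤ z := by
        rw [hz, ← pow_mul]
        exact Nat.pow_le_pow_right (by omega) (by omega)
      obtain ⟨a, ha⟩ : ∃ a : ℕ, a = w + b ^ m * u := ⟨_, rfl⟩
      have haq : a < b ^ (2 * m) := by
        rw [ha]
        calc w + b ^ m * u < b ^ m + b ^ m * u := by omega
          _ = b ^ m * (u + 1) := by ring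
          _ ≤ b ^ m * b ^ m := Nat.mul_le_mul_left _ hu
          _ = b ^ (2 * m) := by rw [← pow_add]; congr 1; omega
      have hac : a.Coprime (b ^ (2 * m)) := by
        apply Nat.Coprime.pow_right
        rw [ha]
        obtain ⟨m', rfl⟩ : ∃ m', m = m' + 1 := ⟨m - 1, by omega⟩
        rw [pow_succ, show w + b ^ m' * b * u = w + b * (b ^ m' * u) by ring]
        exact (Nat.coprime_add_mul_left_left w b _).2 hwc
      have h5 := hlin z hzz (2 * m) a hqz hac
      obtain ⟨P, hP⟩ : ∃ P : Finset ℕ, P = (Ioc z (z ^ K)).filter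
        (fun p => p.Prime ∧ p ≡ a [MOD b ^ (2 * m)]) := ⟨_, rfl⟩
      rw [← hP] at h5
      have hPm : ∀ p ∈ P, Nat.log b p + 1 - m ∈ I ∧ p / b ^ m ∈ B (Nat.log b p + 1 - m) ∧
          w + b ^ m * (p / b ^ m) = p ∧ m ≤ Nat.log b p ∧ 0 < p := by
        intro p hp
        rw [hP, mem_filter, mem_Ioc] at hp
        obtain ⟨⟨hp1, hp2⟩, hp3, hp4⟩ := hp
        have e1 : 32 * m ≤ Nat.log b p := by
          apply Nat.le_log_of_pow_le (by omega)
          rw [← hz]; exact hp1.le
        have e2 : Nat.log b p ≤ 32 * K * m := by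
          have : p ≤ b ^ (32 * K * m) := by
            refine hp2.trans (le_of_eq ?_)
            rw [hz, ← pow_mul]
            congr 1
            ring
          calc Nat.log b p ≤ Nat.log b (b ^ (32 * K * m)) := Nat.log_mono_right this
            _ = 32 * K * m := Nat.log_pow (by omega) _
        have e3 : p % b ^ (2 * m) = a := by
          have : p % b ^ (2 * m) = a % b ^ (2 * m) := hp4
          rw [this, Nat.mod_eq_of_lt haq]
        have e4 : p % b ^ m = w := by
          rw [← hmm m (2 * m) p (by omega), e3, ha, Nat.add_mul_mod_self_left, Nat.mod_eq_of_lt hw]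
        have e5 : p / b ^ m % b ^ m = u := by
          rw [← Nat.mod_mul_right_div_self, ← pow_add, show m + m = 2 * m by ring, e3, ha,
            Nat.add_mul_div_left _ _ (by positivity), Nat.div_eq_of_lt hw, zero_add]
        have e6 : w + b ^ m * (p / b ^ m) = p := by
          conv_rhs => rw [← Nat.mod_add_div p (b ^ m), e4]
        refine ⟨?_, ?_, e6, by omega, hp3.pos⟩
        · rw [hI, mem_Ioc]; omega
        · rw [hB]
          simp only [mem_filter, mem_range]
          refine ⟨?_, e5, ?_⟩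
          · apply Nat.div_lt_of_lt_mul
            rw [← pow_add, show m + (Nat.log b p + 1 - m) = Nat.log b p + 1 by omega]
            exact Nat.lt_pow_succ_log_self (by omega) p
          · rw [e6]; exact hp3
      have h6 : ∑ p ∈ P, (b : ℝ) ^ M / b ^ (Nat.log b p + 1 - m) ≤
          ∑ l ∈ I, (b : ℝ) ^ M / b ^ l * (B l).card := by
        rw [← sum_fiberwise_of_maps_to (g := fun p => Nat.log b p + 1 - m) (t := I)
          (fun p hp => (hPm p hp).1)]
        refine sum_le_sum fun l hl => ?_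
        have e1 : ∑ p ∈ P.filter (fun p => Nat.log b p + 1 - m = l),
            (b : ℝ) ^ M / b ^ (Nat.log b p + 1 - m) =
            (b : ℝ) ^ M / b ^ l * (P.filter (fun p => Nat.log b p + 1 - m = l)).card := by
          rw [sum_congr rfl (g := fun _ => (b : ℝ) ^ M / b ^ l)]
          · rw [sum_const, nsmul_eq_mul, mul_comm]
          · intro p hp
            rw [mem_filter] at hp
            rw [hp.2]
        rw [e1]
        refine mul_le_mul_of_nonneg_left ?_ (by positivity)
        apply Nat.cast_le.2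
        apply card_le_card_of_injOn (fun p => p / b ^ m)
        · intro p hp
          simp only [coe_filter, Set.mem_ofPred_eq] at hp
          have := (hPm p hp.1).2.1
          rw [hp.2] at this
          exact this
        · intro p hp p' hp' hpp
          simp only [coe_filter, Set.mem_ofPred_eq] at hp hp'
          have e2 := (hPm p hp.1).2.2.1
          have e3 := (hPm p' hp'.1).2.2.1
          simp only at hpp
          rw [← e2, ← e3, hpp]
      have h7 : ∀ p ∈ P, (b : ℝ) ^ M * b ^ m / b * (1 / p) ≤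
          (b : ℝ) ^ M / b ^ (Nat.log b p + 1 - m) := by
        intro p hp
        obtain ⟨-, -, -, e1, e2⟩ := hPm p hp
        have hp0 : (0 : ℝ) < p := by exact_mod_cast e2
        have e3 : (b : ℝ) ^ (Nat.log b p + 1 - m) * b ^ m ≤ b * p := by
          have e4 : b ^ Nat.log b p ≤ p := Nat.pow_log_le_self b e2.ne'
          have e5 : b ^ (Nat.log b p + 1 - m) * b ^ m ≤ b * p := by
            rw [← pow_add, show Nat.log b p + 1 - m + m = Nat.log b p + 1 by omega, pow_succ, mul_comm]
            exact Nat.mul_le_mul_left _ e4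
          exact_mod_cast e5
        rw [mul_one_div, div_div, div_le_div_iff₀ (by positivity) (by positivity)]
        calc (b : ℝ) ^ M * b ^ m * b ^ (Nat.log b p + 1 - m)
            = b ^ M * (b ^ (Nat.log b p + 1 - m) * b ^ m) := by ring
          _ ≤ b ^ M * (b * p) := mul_le_mul_of_nonneg_left e3 (by positivity)
      have h8 : (b : ℝ) ^ M * b ^ m / b * (c / ((b ^ (2 * m)).totient : ℝ)) ≤
          ∑ l ∈ I, (b : ℝ) ^ M / b ^ l * (B l).card := by
        calc (b : ℝ) ^ M * b ^ m / b * (c / ((b ^ (2 * m)).totient : ℝ))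
            ≤ (b : ℝ) ^ M * b ^ m / b * ∑ p ∈ P, (1 : ℝ) / p :=
              mul_le_mul_of_nonneg_left h5 (by positivity)
          _ = ∑ p ∈ P, (b : ℝ) ^ M * b ^ m / b * (1 / p) := by rw [mul_sum]
          _ ≤ ∑ p ∈ P, (b : ℝ) ^ M / b ^ (Nat.log b p + 1 - m) := sum_le_sum h7
          _ ≤ _ := h6
      refine le_trans ?_ h8
      have e1 : ((b ^ (2 * m)).totient : ℝ) ≤ b ^ m * b ^ m := by
        rw [← pow_add, show m + m = 2 * m by ring]
        exact_mod_cast Nat.totient_le (b ^ (2 * m))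
      have e2 : (0 : ℝ) < ((b ^ (2 * m)).totient : ℝ) := by
        exact_mod_cast Nat.totient_pos.2 (by positivity)
      calc c / b * b ^ M / b ^ m = (b : ℝ) ^ M * b ^ m / b * (c / (b ^ m * b ^ m)) := by
            field_simp
        _ ≤ _ := by gcongr
    rw [sum_congr rfl hg, ← hTc]
    exact h4
  have hCsplit : 0 ≤ 2 * (1024 * (K : ℝ) ^ 2 * (C2 * C3) + 64 * K * C1) := by positivity
  have hCsplit2 : 0 ≤ 32 * (K : ℝ) * C1 := by positivity
  rw [← hΩ, hTc, hTc]
  refine ⟨hlow, hup1.trans ?_, hup2.trans ?_⟩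
  · nlinarith [mul_nonneg hCsplit hT0.le]
  · nlinarith [mul_nonneg hCsplit2 hT0.le]

end Pool.Agent.H77.TO
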