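import Pool.Agent.H77.TO.Blk2
import Pool.Agent.H94.TO.SLLN

/-!
# The order of magnitude of the counting function
-/

set_option autoImplicit false

namespace Pool.Agent.H77.TO

open Finset MeasureTheory Filter Topology Pool.Agent.W66L

theorem dsum_modb (b : ℕ) (d : ℕ → Fin b) {l M : ℕ} (h : l ≤ M) :
    dsum b M d % b ^ l = dsum b l d := by
  induction M, h using Nat.le_induction with
  | base => exact Nat.mod_eq_of_lt (dsum_lt b l d)
  | succ M hM ih => rw [← ih, ← dsum_compat b M d, Nat.mod_mod_of_dvd _ (pow_dvd_pow b hM)]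

/-- the number of prescribed digits -/
def kap (H l : ℕ) : ℕ := H ^ Nat.log H ((l - 1) / 2)

theorem kap_block {H j l : ℕ} (h1 : 2 * H ^ j < l) (h2 : l ≤ 2 * H ^ (j + 1)) : kap H l = H ^ j := by
  unfold kap
  congr 1
  apply Nat.log_eq_of_pow_le_of_lt_pow
  · omega
  · omega

theorem kap_mono {H : ℕ} (hH : 2 ≤ H) : Monotone (kap H) := by
  intro l l' hll
  unfold kap
  exact Nat.pow_le_pow_right (by omega) (Nat.log_mono_right (by omega))

theorem kap_bounds {H l : ℕ} (hH : 2 ≤ H) (hl : 3 ≤ l) : l ≤ 2 * H * kap H l ∧ 2 * kap H l ≤ l := by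
  unfold kap
  have h1 : (l - 1) / 2 ≠ 0 := by omega
  have h2 := Nat.pow_log_le_self H h1
  have h3 := Nat.lt_pow_succ_log_self (b := H) (by omega) ((l - 1) / 2)
  constructor
  · rw [mul_assoc, ← pow_succ']
    have : (l - 1) / 2 + 1 ≤ H ^ (Nat.log H ((l - 1) / 2)).succ := h3
    rw [Nat.succ_eq_add_one] at this
    omega
  · omega

theorem kap_pos {H l : ℕ} (hH : 2 ≤ H) : 1 ≤ kap H l := by
  unfold kap
  exact Nat.one_le_pow _ _ (by omega)

theorem law (b : ℕ) [NeZero b] (hb : 2 ≤ b) : ∃ (H : ℕ) (c C : ℝ), 2 ≤ H ∧ 0 < c ∧ 0 < C ∧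
    ∀ w : ℕ → ℕ, (∀ k, 1 ≤ k → w k < b ^ k ∧ (w k).Coprime b) →
    ∀ᵐ x ∂(digitMeasure b), ∀ᶠ n : ℕ in atTop,
      c * Real.log n ≤ (((Icc 1 n).filter (fun l =>
        (w (kap H l) + b ^ kap H l * dsum b l x).Prime)).card : ℝ) ∧
      (((Icc 1 n).filter (fun l =>
        (w (kap H l) + b ^ kap H l * dsum b l x).Prime)).card : ℝ) ≤ C * Real.log n := by
  classical
  obtain ⟨K, c, C, hK, hc, hC, m0, hm0, hblk⟩ := block2 b hb
  obtain ⟨H, hH⟩ : ∃ H : ℕ, H = 16 * K := ⟨_, rfl⟩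
  have hH2 : 2 ≤ H := by omega
  have hHK : ∀ m, 32 * K * m = 2 * (H * m) := fun m => by rw [hH]; ring
  have hlogH : 0 < Real.log H := Real.log_pos (by exact_mod_cast (by omega : 1 < H))
  refine ⟨H, c / (4 * Real.log H), 4 * C / Real.log H, hH2, by positivity, by positivity, ?_⟩
  intro w hw
  -- the two families
  have hfam : ∀ e : ℕ, ∀ᵐ x ∂(digitMeasure b), ∀ᶠ J : ℕ in atTop,
      c / 2 * J ≤ ∑ i ∈ range J, Xf b K (w (H ^ (2 * i + e))) (H ^ (2 * i + e))
        (dsum b (H ^ (2 * (i + 1) + e)) x) ∧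
      ∑ i ∈ range J, Xf b K (w (H ^ (2 * i + e))) (H ^ (2 * i + e))
        (dsum b (H ^ (2 * (i + 1) + e)) x) ≤ 2 * C * J := by
    intro e
    refine Pool.Agent.H94.TO.slln b hb (fun i => H ^ (2 * i + e)) ?_
      (fun i s => Xf b K (w (H ^ (2 * i + e))) (H ^ (2 * i + e)) s) c C m0 hc hC
      (fun j s => by unfold Xf; positivity) ?_
    · intro i i' hii
      exact Nat.pow_le_pow_right (by omega) (by omega)
    · intro i hi u hu
      have h1 : m0 ≤ H ^ (2 * i + e) := by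
        calc m0 ≤ i := hi
          _ ≤ 2 * i + e := by omega
          _ ≤ H ^ (2 * i + e) := (Nat.lt_pow_self (by omega)).le
      have h2 : 1 ≤ H ^ (2 * i + e) := Nat.one_le_pow _ _ (by omega)
      have h3 := hw (H ^ (2 * i + e)) h2
      refine hblk (H ^ (2 * i + e)) h1 (w (H ^ (2 * i + e))) u (H ^ (2 * (i + 1) + e)) h3.1 h3.2 hu ?_
      rw [hHK, show 2 * (i + 1) + e = (2 * i + e) + 1 + 1 by ring, pow_succ, pow_succ]
      calc 2 * (H * H ^ (2 * i + e)) ≤ H * (H * H ^ (2 * i + e)) := Nat.mul_le_mul_right _ hH2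
        _ = _ := by ring
  filter_upwards [hfam 0, hfam 1] with x h0 h1
  obtain ⟨D, hD⟩ : ∃ D : ℕ → ℕ, D = fun j => ((Ioc (2 * H ^ j) (2 * H ^ (j + 1))).filter (fun l =>
    (w (kap H l) + b ^ kap H l * dsum b l x).Prime)).card := ⟨_, rfl⟩
  obtain ⟨N, hN⟩ : ∃ N : ℕ → ℕ, N = fun n => ((Icc 1 n).filter (fun l =>
    (w (kap H l) + b ^ kap H l * dsum b l x).Prime)).card := ⟨_, rfl⟩
  have hXD : ∀ j M : ℕ, 2 * H ^ (j + 1) ≤ M → Xf b K (w (H ^ j)) (H ^ j) (dsum b M x) = (D j : ℝ) := by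
    intro j M hM
    unfold Xf
    rw [hD]
    simp only
    congr 2
    rw [hHK, ← pow_succ']
    apply filter_congr
    intro l hl
    rw [mem_Ioc] at hl
    rw [dsum_modb b x (hl.2.trans hM), kap_block hl.1 hl.2]
  have hfam2 : ∀ e : ℕ, ∀ J : ℕ, ∑ i ∈ range J, Xf b K (w (H ^ (2 * i + e))) (H ^ (2 * i + e))
      (dsum b (H ^ (2 * (i + 1) + e)) x) = ∑ i ∈ range J, (D (2 * i + e) : ℝ) := by
    intro e J
    refine sum_congr rfl fun i _ => hXD _ _ ?_
    rw [show 2 * (i + 1) + e = (2 * i + e + 1) + 1 by ring, pow_succ H (2 * i + e + 1), mul_comm]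
    exact Nat.mul_le_mul_left _ hH2
  have hmono : Monotone N := by
    intro n n' hnn
    rw [hN]
    exact card_le_card (filter_subset_filter _ (Icc_subset_Icc_right hnn))
  have hstep : ∀ j, N (2 * H ^ (j + 1)) = N (2 * H ^ j) + D j := by
    intro j
    rw [hN, hD]
    simp only
    rw [← card_union_of_disjoint, ← filter_union]
    · congr 2
      ext l
      simp only [mem_union, mem_Icc, mem_Ioc]
      have : 2 * H ^ j ≤ 2 * H ^ (j + 1) := Nat.mul_le_mul_left _ (Nat.pow_le_pow_right (by omega) (by omega))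
      omega
    · rw [disjoint_left]
      intro l hl hl'
      rw [mem_filter, mem_Icc] at hl
      rw [mem_filter, mem_Ioc] at hl'
      omega
  have hsum : ∀ J, N (2 * H ^ (2 * J)) = N 2 + ∑ i ∈ range J, (D (2 * i) + D (2 * i + 1)) := by
    intro J
    induction J with
    | zero => simp
    | succ J ih =>
      rw [show 2 * (J + 1) = 2 * J + 1 + 1 by ring, hstep, hstep, ih, sum_range_succ]
      ring
  have hN2 : N 2 ≤ 2 := by
    rw [hN]
    simp only
    refine (card_filter_le _ _).trans ?_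
    simp
  have hev : ∀ᶠ J : ℕ in atTop, c * J ≤ ((∑ i ∈ range J, (D (2 * i) + D (2 * i + 1)) : ℕ) : ℝ) ∧
      ((∑ i ∈ range J, (D (2 * i) + D (2 * i + 1)) : ℕ) : ℝ) ≤ 4 * C * J := by
    filter_upwards [h0, h1] with J hJ0 hJ1
    rw [hfam2] at hJ0 hJ1
    push_cast
    rw [sum_add_distrib]
    simp only [add_zero] at hJ0
    constructor
    · linarith [hJ0.1, hJ1.1]
    · linarith [hJ0.2, hJ1.2]
  obtain ⟨J0, hJ0⟩ := eventually_atTop.1 hev
  -- large `n`
  have hlogn : Tendsto (fun n : ℕ => Real.log (n : ℝ)) atTop atTop :=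
    Real.tendsto_log_atTop.comp tendsto_natCast_atTop_atTop
  filter_upwards [eventually_ge_atTop (2 * H ^ (2 * J0 + 2)), hlogn.eventually_ge_atTop
    (4 * Real.log H + 2 * Real.log 2), hlogn.eventually_ge_atTop (2 * Real.log H + Real.log H / C)]
    with n hn hn1 hn2
  obtain ⟨J, hJ⟩ : ∃ J : ℕ, J = Nat.log H (n / 2) / 2 := ⟨_, rfl⟩
  have hn0 : n / 2 ≠ 0 := by
    have : 1 ≤ H ^ (2 * J0 + 2) := Nat.one_le_pow _ _ (by omega)
    omega
  have hJle : 2 * H ^ (2 * J) ≤ n := by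
    have e1 : H ^ (2 * J) ≤ H ^ Nat.log H (n / 2) := Nat.pow_le_pow_right (by omega) (by omega)
    have e2 := Nat.pow_log_le_self H hn0
    omega
  have hJlt : n ≤ 2 * H ^ (2 * (J + 1)) := by
    have e1 : n / 2 < H ^ (Nat.log H (n / 2)).succ := Nat.lt_pow_succ_log_self (by omega) _
    have e2 : H ^ (Nat.log H (n / 2)).succ ≤ H ^ (2 * (J + 1)) :=
      Nat.pow_le_pow_right (by omega) (by omega)
    omega
  have hJJ : J0 ≤ J := by
    have e1 : H ^ (2 * J0 + 2) ≤ n / 2 := by omega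
    have e2 : 2 * J0 + 2 ≤ Nat.log H (n / 2) := Nat.le_log_of_pow_le (by omega) e1
    omega
  have hn00 : (0 : ℝ) < n := by
    have : 0 < n := by omega
    exact_mod_cast this
  have hH0 : (0 : ℝ) < H := by exact_mod_cast (by omega : 0 < H)
  have hl1 : 2 * (J : ℝ) * Real.log H ≤ Real.log n := by
    have e1 : (H : ℝ) ^ (2 * J) ≤ n := by
      have : H ^ (2 * J) ≤ n := by omega
      exact_mod_cast this
    have e2 := Real.log_le_log (by positivity) e1
    rw [Real.log_pow] at e2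
    push_cast at e2
    linarith
  have hl2 : Real.log n ≤ Real.log 2 + (2 * (J : ℝ) + 2) * Real.log H := by
    have e1 : (n : ℝ) ≤ 2 * (H : ℝ) ^ (2 * (J + 1)) := by exact_mod_cast hJlt
    have e2 := Real.log_le_log hn00 e1
    rw [Real.log_mul (by norm_num) (by positivity), Real.log_pow] at e2
    push_cast at e2
    linarith
  have hcount : (((Icc 1 n).filter (fun l =>
      (w (kap H l) + b ^ kap H l * dsum b l x).Prime)).card : ℝ) = (N n : ℝ) := by rw [hN]
  rw [hcount]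
  constructor
  · have e1 : (N (2 * H ^ (2 * J)) : ℝ) ≤ N n := by exact_mod_cast hmono hJle
    rw [hsum] at e1
    push_cast at e1
    have e2 := (hJ0 J hJJ).1
    push_cast at e2
    have e3 : (0 : ℝ) ≤ (N 2 : ℝ) := Nat.cast_nonneg _
    have e4 : c / (4 * Real.log H) * Real.log n ≤ c * J := by
      rw [div_mul_eq_mul_div, div_le_iff₀ (by positivity)]
      have e5 : Real.log n ≤ J * (4 * Real.log H) := by linarith
      calc c * Real.log n ≤ c * (J * (4 * Real.log H)) := mul_le_mul_of_nonneg_left e5 hc.le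
        _ = _ := by ring
    linarith
  · have e1 : (N n : ℝ) ≤ N (2 * H ^ (2 * (J + 1))) := by exact_mod_cast hmono hJlt
    rw [hsum] at e1
    push_cast at e1
    have e2 := (hJ0 (J + 1) (by omega)).2
    push_cast at e2
    have e3 : (N 2 : ℝ) ≤ 2 := by exact_mod_cast hN2
    have e4 : 4 * C * ((J : ℝ) + 1) + 2 ≤ 4 * C / Real.log H * Real.log n := by
      rw [div_mul_eq_mul_div, le_div_iff₀ hlogH]
      have e5 : Real.log H / C * C = Real.log H := by field_simp
      have e6 : 2 * (J : ℝ) * Real.log H * C ≤ Real.log n * C := mul_le_mul_of_nonneg_right hl1 hC.le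
      have e7 : (2 * Real.log H + Real.log H / C) * C ≤ Real.log n * C :=
        mul_le_mul_of_nonneg_right hn2 hC.le
      nlinarith
    linarith

end Pool.Agent.H77.TO
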