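import Pool.Graph.R_pool_sql_team_seeded_1acbe0a2.Y866.LK.Page

/-!
# A Linnik type lower bound for the primes in residue classes modulo powers of ten

A version of `Pool.Agent.Y866.LK.page` (library) for the moduli `10 ^ k`, for which there is no exceptional
character: real characters modulo `10 ^ k` have a conductor at most `100`.
-/

set_option autoImplicit false

namespace Pool.Agent.H77.TO

open Finset Pool.Agent.H262R3.Lk Pool.Agent.W69.MH

/-- squares modulo powers of ten -/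
theorem sq_exists (k : ℕ) : ∀ u : ℕ, u % 40 = 1 → ∃ x : ℕ, x ^ 2 ≡ u [MOD 10 ^ (k + 3)] := by
  induction k with
  | zero =>
    intro u hu
    have h1 : ∀ v < 1000, v % 40 = 1 → ∃ x < 1000, x ^ 2 % 1000 = v := by decide +kernel
    obtain ⟨x, -, hx⟩ := h1 (u % 1000) (Nat.mod_lt _ (by norm_num)) (by omega)
    refine ⟨x, ?_⟩
    show x ^ 2 % 10 ^ 3 = u % 10 ^ 3
    norm_num
    exact hx
  | succ k ih =>
    intro u hu
    obtain ⟨x, hx⟩ := ih u hu
    -- `x` is prime to `10`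
    have hxc : Nat.Coprime x 10 := by
      have h1 : x ^ 2 ≡ u [MOD 10] := hx.of_dvd ⟨10 ^ (k + 2), by ring⟩
      have h2 : (x ^ 2).Coprime 10 := by
        have h3 : u % 10 = 1 := by omega
        have h4 : x ^ 2 % 10 = 1 := by rw [← h3]; exact h1
        rw [Nat.coprime_iff_gcd_eq_one, Nat.gcd_comm, Nat.gcd_rec, h4]
        simp
      exact Nat.Coprime.coprime_dvd_left (dvd_pow_self x (by norm_num)) h2
    obtain ⟨y, hy⟩ : ∃ y : ℤ, (x : ℤ) * y ≡ 1 [ZMOD 10] := by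
      have := Int.gcd_eq_gcd_ab x 10
      refine ⟨Int.gcdA x 10, ?_⟩
      have h5 : (Int.gcd (x : ℤ) 10 : ℤ) = 1 := by
        have : Int.gcd (x : ℤ) 10 = 1 := by simpa [Int.gcd] using hxc
        rw [this]; norm_num
      rw [h5] at this
      rw [Int.modEq_iff_dvd]
      exact ⟨Int.gcdB x 10, by linarith⟩
    obtain ⟨t, ht⟩ : ∃ t : ℤ, (u : ℤ) - (x : ℤ) ^ 2 = 10 ^ (k + 3) * t := by
      have h6 := (Nat.modEq_iff_dvd.1 hx)
      obtain ⟨t, ht⟩ := h6
      refine ⟨t, ?_⟩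
      push_cast at ht
      linarith
    -- the new root
    obtain ⟨X, hX⟩ : ∃ X : ℤ, X ^ 2 ≡ (u : ℤ) [ZMOD 10 ^ (k + 4)] := by
      refine ⟨x + 5 * 10 ^ (k + 2) * (y * t), ?_⟩
      rw [Int.modEq_iff_dvd]
      obtain ⟨r, hr⟩ := Int.modEq_iff_dvd.1 hy
      refine ⟨t * r - 25 * 10 ^ k * (y * t) ^ 2, ?_⟩
      have e1 : (u : ℤ) = (x : ℤ) ^ 2 + 10 ^ (k + 3) * t := by linarith
      have e2 : (1 : ℤ) = x * y + 10 * r := by linarith
      have e3 : (10 : ℤ) ^ (k + 3) = 1000 * 10 ^ k := by ring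
      have e4 : (10 : ℤ) ^ (k + 4) = 10000 * 10 ^ k := by ring
      have e5 : (10 : ℤ) ^ (k + 2) = 100 * 10 ^ k := by ring
      rw [e1, e3, e4, e5]
      linear_combination (1000 * 10 ^ k * t) * e2
    refine ⟨(X % 10 ^ (k + 4)).toNat, ?_⟩
    have hpos : (0 : ℤ) < 10 ^ (k + 4) := by positivity
    have h7 : (((X % 10 ^ (k + 4)).toNat : ℕ) : ℤ) = X % 10 ^ (k + 4) :=
      Int.toNat_of_nonneg (Int.emod_nonneg _ hpos.ne')
    have h8 : (((X % 10 ^ (k + 4)).toNat ^ 2 : ℕ) : ℤ) ≡ (u : ℤ) [ZMOD ((10 ^ (k + 4) : ℕ) : ℤ)] := by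
      push_cast
      rw [h7]
      exact ((Int.mod_modEq X _).pow 2).trans hX
    exact (Int.natCast_modEq_iff).1 h8

/-- real characters modulo a power of ten have a small conductor -/
theorem conductor_le (k : ℕ) (χ : DirichletCharacter ℂ (10 ^ k)) (h2 : χ ^ 2 = 1) :
    χ.conductor ≤ 100 := by
  rcases Nat.lt_or_ge k 3 with hk | hk
  · refine (Nat.le_of_dvd (by positivity) χ.conductor_dvd_level).trans ?_
    calc 10 ^ k ≤ 10 ^ 2 := Nat.pow_le_pow_right (by norm_num) (by omega)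
      _ = 100 := by norm_num
  · obtain ⟨j, rfl⟩ : ∃ j, k = j + 3 := ⟨k - 3, by omega⟩
    have : NeZero (10 ^ (j + 3)) := ⟨by positivity⟩
    have hd : 40 ∣ 10 ^ (j + 3) := ⟨25 * 10 ^ j, by ring⟩
    have hf : χ.FactorsThrough 40 := by
      rw [DirichletCharacter.factorsThrough_iff_ker_unitsMap hd]
      intro u hu
      rw [MonoidHom.mem_ker] at hu ⊢
      -- `u ≡ 1` modulo `40`
      have h3 : ((u : ZMod (10 ^ (j + 3))).val) % 40 = 1 := by
        have h4 : ZMod.castHom hd (ZMod 40) (u : ZMod (10 ^ (j + 3))) = 1 := by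
          have h5 := congrArg Units.val hu
          simpa [ZMod.unitsMap] using h5
        rw [ZMod.castHom_apply, ZMod.cast_eq_val] at h4
        have h6 : (((u : ZMod (10 ^ (j + 3))).val : ℕ) : ZMod 40) = ((1 : ℕ) : ZMod 40) := by
          rw [h4]; norm_num
        have h7 := (ZMod.natCast_eq_natCast_iff' _ _ _).1 h6
        simpa using h7
      obtain ⟨x, hx⟩ := sq_exists j _ h3
      have h8 : ((x : ZMod (10 ^ (j + 3)))) ^ 2 = (u : ZMod (10 ^ (j + 3))) := by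
        have h9 := (ZMod.natCast_eq_natCast_iff _ _ _).2 hx
        rw [ZMod.natCast_zmod_val] at h9
        push_cast at h9
        exact h9
      have hxu : IsUnit ((x : ZMod (10 ^ (j + 3)))) := by
        have : IsUnit (((x : ZMod (10 ^ (j + 3)))) ^ 2) := by rw [h8]; exact u.isUnit
        exact (isUnit_pow_iff (by norm_num)).1 this
      have h10 : u = hxu.unit ^ 2 := by
        ext
        rw [Units.val_pow_eq_pow_val, IsUnit.unit_spec, h8]
      rw [h10, map_pow]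
      ext
      rw [Units.val_pow_eq_pow_val, MulChar.coe_toUnitHom]
      have h11 := congrArg (fun f : DirichletCharacter ℂ (10 ^ (j + 3)) => f (hxu.unit : ZMod _)) h2
      simp only [MulChar.pow_apply_coe, MulChar.one_apply_coe] at h11
      simpa using h11
    exact (Nat.le_of_dvd (by norm_num) (χ.conductor_dvd_of_mem_conductorSet hf)).trans (by norm_num)

/-- the Linnik type bound for the moduli `10 ^ k` -/
theorem lin10 : ∃ (K : ℕ) (c : ℝ), 1 ≤ K ∧ 0 < c ∧ ∃ z0 : ℕ, ∀ z : ℕ, z0 ≤ z →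
    ∀ k b : ℕ, (10 ^ k) ^ 16 ≤ z → b.Coprime (10 ^ k) →
    c / ((10 ^ k).totient : ℝ) ≤
      ∑ p ∈ (Ioc z (z ^ K)).filter (fun p => p.Prime ∧ p ≡ b [MOD 10 ^ k]), (1 : ℝ) / p := by
  have hSUM := Pool.Agent.W933.MHSum.sum_
  have hFL := Pool.Agent.W333.MH.fl
  have hDIFF := Pool.Agent.W505.MH.diff hFL hSUM
  have hA0 := Pool.Agent.W505.MH.a0 hFL hSUM
  have hCLS := Pool.Agent.W193.MH.Cls.cls hSUM
  have hB0 := Pool.Agent.H262R3.Lk.b0 Pool.Agent.W505.MH.bt hSUM
  have hB2 := Pool.Agent.W440.MH.b2 hSUM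
  have hALG := Pool.Agent.H262R3.Lk.alg hSUM
  have hLIN := Pool.Agent.Y866.LK.linQ hSUM hDIFF hA0 hB0 hB2 hALG Pool.Agent.W215.MH.eul hCLS
    Pool.Agent.W701.MH.abs_
  have hTAIL := Pool.Agent.W803.MH.tail Pool.Agent.W505.MH.bt hSUM
  obtain ⟨A, c, lam, hA, hc, hlam, hlam2, z1, h1⟩ := hLIN
  obtain ⟨K, z2, hK, h2⟩ := hTAIL A (c / 2) hA (by positivity)
  have hK0 : (0 : ℝ) < (K : ℝ) := by exact_mod_cast hK
  refine ⟨K, c / (2 * (K : ℝ) ^ 3), hK, by positivity, ?_⟩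
  obtain ⟨z3, h3w⟩ := Pool.Agent.H262R3.Lk.swq 1
  refine ⟨max (max (max z1 z2) 3) (max z3 ⌈Real.exp 100⌉₊), ?_⟩
  intro z hz'
  have hz : max (max z1 z2) 3 ≤ z := (le_max_left _ _).trans hz'
  have hz3w : z3 ≤ z := (le_max_left _ _).trans ((le_max_right _ _).trans hz')
  have hz5w : ⌈Real.exp 100⌉₊ ≤ z := (le_max_right _ _).trans ((le_max_right _ _).trans hz')
  have hz1 : z1 ≤ z := le_trans (le_trans (le_max_left _ _) (le_max_left _ _)) hz
  have hz2 : z2 ≤ z := le_trans (le_trans (le_max_right _ _) (le_max_left _ _)) hz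
  have hz4 : 3 ≤ z := le_trans (le_max_right _ _) hz
  have hz0 : (0 : ℝ) < z := by exact_mod_cast (by omega : 0 < z)
  have hlog100 : 100 ≤ Real.log z := by
    rw [Real.le_log_iff_exp_le hz0]
    exact (Nat.le_ceil _).trans (by exact_mod_cast hz5w)
  have h8 : ∀ q : ℕ, 0 < q → q ^ 16 ≤ z → q ^ 8 ≤ z := fun q hq h =>
    (Nat.pow_le_pow_right hq (by norm_num)).trans h
  -- it is enough that no real character is exceptional
  have hmain : ∀ q b : ℕ, 0 < q → q ^ 16 ≤ z → b.Coprime q →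
      (∀ χ : DirichletCharacter ℂ q, χ ≠ 1 → χ ^ 2 = 1 →
        lam ≤ ‖Lj z χ 0 (1 / (A * Real.log z))‖) →
      c / (2 * (K : ℝ) ^ 3) / (q.totient : ℝ) ≤
      ∑ p ∈ (Ioc z (z ^ K)).filter (fun p => p.Prime ∧ p ≡ b [MOD q]), (1 : ℝ) / p := by
    intro q b hqpos hq hb hreal
    have : NeZero q := ⟨hqpos.ne'⟩
    have hlow := (h1 z q hz1 (h8 q hqpos hq)).1 b hb hreal
    have hup := h2 z q b hz2 hqpos (h8 q hqpos hq) hb
    have hphi : (0 : ℝ) < (q.totient : ℝ) := by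
      exact_mod_cast Nat.totient_pos.2 hqpos
    have hL3 : (0 : ℝ) < (Real.log z) ^ 3 := by positivity
    obtain ⟨S, hS⟩ : ∃ S : ℝ, S = ∑ p ∈ (Ioc z (z ^ K)).filter
      (fun p => p.Prime ∧ p ≡ b [MOD q]), (1 : ℝ) / p := ⟨_, rfl⟩
    rw [← hS] at hup ⊢
    have h5 : c * (Real.log z) ^ 3 / (q.totient : ℝ) ≤
        c / 2 * (Real.log z) ^ 3 / (q.totient : ℝ) + (K : ℝ) ^ 3 * (Real.log z) ^ 3 * S :=
      le_trans hlow hup
    have h6 : (c / 2 / (q.totient : ℝ)) * (Real.log z) ^ 3 ≤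
        ((K : ℝ) ^ 3 * S) * (Real.log z) ^ 3 := by
      have e1 : c * (Real.log z) ^ 3 / (q.totient : ℝ) =
          2 * ((c / 2 / (q.totient : ℝ)) * (Real.log z) ^ 3) := by
        field_simp
      have e2 : c / 2 * (Real.log z) ^ 3 / (q.totient : ℝ) =
          (c / 2 / (q.totient : ℝ)) * (Real.log z) ^ 3 := by
        field_simp
      rw [e1, e2] at h5
      nlinarith
    have h7 : c / 2 / (q.totient : ℝ) ≤ (K : ℝ) ^ 3 * S :=
      le_of_mul_le_mul_right h6 hL3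
    have hK3 : (0 : ℝ) < (K : ℝ) ^ 3 := by positivity
    have e3 : c / (2 * (K : ℝ) ^ 3) / (q.totient : ℝ) =
        (c / 2 / (q.totient : ℝ)) / (K : ℝ) ^ 3 := by
      field_simp
    rw [e3, div_le_iff₀ hK3]
    linarith
  intro k b hkz hb
  have hq0 : 0 < 10 ^ k := by positivity
  refine hmain (10 ^ k) b hq0 hkz hb ?_
  intro χ hχ hχ2
  have : NeZero (10 ^ k) := ⟨hq0.ne'⟩
  have hc0 : χ.conductor ≠ 0 := χ.conductor_ne_zero
  have hc1 : χ.conductor ≠ 1 := fun h => hχ (χ.eq_one_iff_conductor_eq_one.2 h)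
  have hc100 := conductor_le k χ hχ2
  have hqz : 10 ^ k ≤ z := (Nat.le_self_pow (by norm_num) _).trans hkz
  have hcz : χ.conductor ≤ z := (Nat.le_of_dvd hq0 χ.conductor_dvd_level).trans hqz
  have hsm : (χ.conductor : ℝ) ≤ Real.log z ^ 1 := by
    rw [pow_one]
    refine le_trans ?_ hlog100
    exact_mod_cast hc100
  have h6 := h3w z hz3w χ.conductor (by omega) hsm χ.primitiveCharacter
    χ.primitiveCharacter_isPrimitive (1 / (A * Real.log z)) (by positivity) (by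
      rw [div_le_one (by positivity)]
      nlinarith)
  have h7 := Pool.Agent.Y866.LK.Lj_lift (z := z) χ.conductor_dvd_level hqz χ.primitiveCharacter
    (1 / (A * Real.log z))
  have h8 : DirichletCharacter.changeLevel χ.conductor_dvd_level χ.primitiveCharacter = χ :=
    (χ.factorsThrough_conductor.eq_changeLevel).symm
  rw [h8] at h7
  rw [h7]
  linarith

end Pool.Agent.H77.TO
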