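import Pool.Agent.H77.TO.Blk
import Pool.Graph.R_seed8.W66.LT

/-!
# Almost every sequence of digits
-/

set_option autoImplicit false

namespace Pool.Agent.H77.TO

open Finset MeasureTheory Filter Topology Pool.Agent.W66L

/-- residues modulo smaller powers -/
theorem dsum_mod (d : ℕ → Fin 10) {l M : ℕ} (h : l ≤ M) : dsum 10 M d % 10 ^ l = dsum 10 l d := by
  induction M, h using Nat.le_induction with
  | base => exact Nat.mod_eq_of_lt (dsum_lt 10 l d)
  | succ M hM ih => rw [← ih, ← dsum_compat 10 M d, Nat.mod_mod_of_dvd _ (pow_dvd_pow 10 hM)]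

open Classical in
/-- the residues which avoid the first blocks -/
noncomputable def Sb (K : ℕ) (w : ℕ → ℕ) (m : ℕ → ℕ) : ℕ → Finset ℕ
  | 0 => range (10 ^ m 0)
  | i + 1 => (range (10 ^ m (i + 1))).filter
      (fun s => s % 10 ^ m i ∈ Sb K w m i ∧ ¬ Ev K (w (m i)) (m i) s)

theorem Sb_lt (K : ℕ) (w m : ℕ → ℕ) (i : ℕ) : ∀ s ∈ Sb K w m i, s < 10 ^ m i := by
  classical
  intro s hs
  cases i with
  | zero => exact mem_range.1 hs
  | succ i =>
    unfold Sb at hs
    rw [mem_filter, mem_range] at hs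
    exact hs.1

theorem measure_mem (n : ℕ) (S : Finset ℕ) (hS : ∀ s ∈ S, s < 10 ^ n) :
    (digitMeasure 10).real {x | dsum 10 n x ∈ S} = (S.card : ℝ) / 10 ^ n := by
  have hfull := full_digits 10
  have e : {x : ℕ → Fin 10 | dsum 10 n x ∈ S} = ⋃ a ∈ S, {x | dsum 10 n x = a} := by
    ext x; simp
  rw [e, measureReal_biUnion_finset]
  · rw [sum_congr rfl (g := fun _ => (1 : ℝ) / 10 ^ n)]
    · rw [sum_const, nsmul_eq_mul, mul_one_div]
    · intro a ha
      rw [hfull.unif n a (hS a ha), probReal_univ]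
      norm_num
  · intro a _ b _ hab
    rw [Function.onFun, Set.disjoint_left]
    intro x hx hx'
    exact hab (hx.symm.trans hx')
  · intro a _
    exact (hfull.meas n) (MeasurableSet.of_discrete (s := {a}))

/-- one block at a time -/
theorem chain : ∃ K : ℕ, 1 ≤ K ∧ ∃ m0 : ℕ, 1 ≤ m0 ∧ ∀ w : ℕ → ℕ,
    (∀ k, 1 ≤ k → w k < 10 ^ k ∧ (w k).Coprime 10) → ∀ m1 : ℕ, m0 ≤ m1 →
    ∀ᵐ x ∂(digitMeasure 10), ∃ m : ℕ, m1 ≤ m ∧ ∃ l : ℕ, l ≤ 32 * K * m ∧
      Good (w m) m (dsum 10 l x) := by
  classical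
  obtain ⟨K, c, hK, hc, m0, hm0, hb⟩ := block
  refine ⟨K, hK, m0, hm0, fun w hw m1 hm1 => ?_⟩
  obtain ⟨H, hH⟩ : ∃ H : ℕ, H = 32 * K := ⟨_, rfl⟩
  have hH1 : 1 ≤ H := by omega
  obtain ⟨m, hm⟩ : ∃ m : ℕ → ℕ, m = fun i => H ^ i * m1 := ⟨_, rfl⟩
  have hm_succ : ∀ i, m (i + 1) = 32 * K * m i := fun i => by
    rw [hm, hH]; simp only; ring
  have hmge : ∀ i, m1 ≤ m i := fun i => by
    rw [hm]; exact Nat.le_mul_of_pos_left _ (by positivity)
  have hm11 : 1 ≤ m1 := by omega
  -- the recursion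
  have hrec : ∀ i, ((Sb K w m (i + 1)).card : ℝ) ≤
      (1 - c / (1 + Real.log ((m (i + 1) : ℕ) + 1))) * (10 ^ m (i + 1) / 10 ^ m i) *
        ((Sb K w m i).card : ℝ) := by
    intro i
    have hmi := hmge i
    have hle : m i ≤ m (i + 1) := by
      rw [hm_succ, ← hH]; exact Nat.le_mul_of_pos_left _ (by positivity)
    have hL : (1 : ℝ) ≤ 1 + Real.log ((m (i + 1) : ℕ) + 1) := by
      have : 0 ≤ Real.log (((m (i + 1) : ℕ) : ℝ) + 1) := Real.log_nonneg (by
        have : (0 : ℝ) ≤ (m (i + 1) : ℕ) := Nat.cast_nonneg _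
        linarith)
      linarith
    rw [card_eq_sum_card_fiberwise (f := fun s => s % 10 ^ m i) (t := Sb K w m i)]
    · push_cast
      have h1 : ∀ u ∈ Sb K w m i,
          (((Sb K w m (i + 1)).filter (fun s => s % 10 ^ m i = u)).card : ℝ) ≤
          (1 - c / (1 + Real.log ((m (i + 1) : ℕ) + 1))) * (10 ^ m (i + 1) / 10 ^ m i) := by
        intro u hu
        have hu10 := Sb_lt K w m i u hu
        obtain ⟨hw1, hw2⟩ := hw (m i) (by omega)
        obtain ⟨Ω, hΩ⟩ : ∃ Ω : Finset ℕ, Ω = (range (10 ^ m (i + 1))).filter (fun s => s % 10 ^ m i = u) :=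
          ⟨_, rfl⟩
        have h2 := hb (m i) (by omega) (w (m i)) u hw1 hw2 hu10
          (Ω.filter (fun s => Ev K (w (m i)) (m i) s)) (by
            intro s hs1 hs2 hs3
            rw [mem_filter, hΩ, mem_filter, mem_range, hm_succ]
            exact ⟨⟨hs1, hs2⟩, hs3⟩)
        rw [← hm_succ] at h2
        have h3 : (Ω.card : ℝ) = 10 ^ m (i + 1) / 10 ^ m i := by
          have e1 : 10 ^ m (i + 1) = 10 ^ m i * 10 ^ (m (i + 1) - m i) := by
            rw [← pow_add]; congr 1; omega
          have e2 := card_mod (10 ^ m i) (fun t => t = u) (10 ^ (m (i + 1) - m i))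
          rw [← e1, ← hΩ] at e2
          have e3 : ((range (10 ^ m i)).filter (fun t => t = u)).card = 1 := by
            rw [filter_eq' , if_pos (mem_range.2 hu10), card_singleton]
          rw [e3, mul_one] at e2
          rw [e2]
          push_cast
          rw [eq_div_iff (by positivity), ← pow_add]
          congr 1
          omega
        have h4 : (((Sb K w m (i + 1)).filter (fun s => s % 10 ^ m i = u)).card : ℝ) +
            ((Ω.filter (fun s => Ev K (w (m i)) (m i) s)).card : ℝ) ≤ Ω.card := by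
          rw [← Nat.cast_add]
          apply Nat.cast_le.2
          rw [← card_union_of_disjoint]
          · apply card_le_card
            intro s hs
            rw [mem_union] at hs
            rcases hs with hs | hs
            · rw [mem_filter] at hs
              rw [hΩ, mem_filter, mem_range]
              exact ⟨Sb_lt K w m (i + 1) s hs.1, hs.2⟩
            · exact (mem_filter.1 hs).1
          · rw [disjoint_left]
            intro s hs hs'
            rw [mem_filter] at hs hs'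
            have h5 := hs.1
            unfold Sb at h5
            rw [mem_filter] at h5
            exact h5.2.2 hs'.2
        have h6 : c / (1 + Real.log ((m (i + 1) : ℕ) + 1)) * (10 ^ m (i + 1) / 10 ^ m i) ≤
            ((Ω.filter (fun s => Ev K (w (m i)) (m i) s)).card : ℝ) := by
          rw [div_mul_div_comm, div_le_iff₀ (by positivity)]
          rw [div_le_iff₀ (by positivity)] at h2
          calc c * 10 ^ m (i + 1) ≤ _ := h2
            _ = _ := by ring
        rw [sub_mul, one_mul]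
        linarith
      calc ∑ u ∈ Sb K w m i, (((Sb K w m (i + 1)).filter (fun s => s % 10 ^ m i = u)).card : ℝ)
          ≤ ∑ u ∈ Sb K w m i, (1 - c / (1 + Real.log ((m (i + 1) : ℕ) + 1))) *
              (10 ^ m (i + 1) / 10 ^ m i) := sum_le_sum h1
        _ = _ := by rw [sum_const, nsmul_eq_mul, mul_comm]
    · intro s hs
      have hs' : s ∈ Sb K w m (i + 1) := hs
      unfold Sb at hs'
      rw [mem_filter] at hs'
      exact hs'.2.1
  -- the bound for the density
  obtain ⟨D, hD⟩ : ∃ D : ℝ, D = 1 + Real.log ((((m1 + 1) * H : ℕ)) : ℝ) := ⟨_, rfl⟩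
  have hD1 : 1 ≤ D := by
    rw [hD]
    have : 0 ≤ Real.log ((((m1 + 1) * H : ℕ)) : ℝ) := Real.log_nonneg (by
      exact_mod_cast (Nat.mul_pos (by omega : 0 < m1 + 1) (by omega : 0 < H)))
    linarith
  have hlog : ∀ i : ℕ, 1 + Real.log ((m (i + 1) : ℕ) + 1) ≤ D * (i + 1) := by
    intro i
    have e1 : m (i + 1) + 1 ≤ ((m1 + 1) * H) ^ (i + 1) := by
      rw [hm]
      simp only
      calc H ^ (i + 1) * m1 + 1 ≤ H ^ (i + 1) * m1 + H ^ (i + 1) :=
            Nat.add_le_add_left (Nat.one_le_pow _ _ (by omega)) _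
        _ = (m1 + 1) * H ^ (i + 1) := by ring
        _ ≤ (m1 + 1) ^ (i + 1) * H ^ (i + 1) :=
            Nat.mul_le_mul_right _ (Nat.le_self_pow (by omega) _)
        _ = ((m1 + 1) * H) ^ (i + 1) := by rw [mul_pow]
    have e2 : Real.log ((m (i + 1) : ℕ) + 1) ≤ (i + 1) * Real.log ((((m1 + 1) * H : ℕ)) : ℝ) := by
      have e3 : (((m (i + 1) : ℕ) : ℝ) + 1) ≤ ((((m1 + 1) * H : ℕ)) : ℝ) ^ (i + 1) := by
        exact_mod_cast e1
      have e4 := Real.log_le_log (by positivity) e3
      rw [Real.log_pow] at e4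
      push_cast at e4 ⊢
      exact e4
    rw [hD]
    have e5 : (0 : ℝ) ≤ i := Nat.cast_nonneg i
    nlinarith
  have hdens : ∀ n : ℕ, ((Sb K w m n).card : ℝ) / 10 ^ m n ≤
      Real.exp (- (c / D) * ∑ i ∈ range n, 1 / ((i : ℝ) + 1)) := by
    intro n
    induction n with
    | zero =>
      have : Sb K w m 0 = range (10 ^ m 0) := by unfold Sb; rfl
      rw [this, card_range]
      push_cast
      simp
    | succ n ih =>
      have h1 := hrec n
      have h2 : 1 - c / (1 + Real.log ((m (n + 1) : ℕ) + 1)) ≤ Real.exp (- (c / D) * (1 / ((n : ℝ) + 1))) := by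
        have h3 : c / (D * (n + 1)) ≤ c / (1 + Real.log ((m (n + 1) : ℕ) + 1)) := by
          apply div_le_div_of_nonneg_left hc.le _ (hlog n)
          have : 0 ≤ Real.log (((m (n + 1) : ℕ) : ℝ) + 1) := Real.log_nonneg (by
            have : (0 : ℝ) ≤ (m (n + 1) : ℕ) := Nat.cast_nonneg _
            linarith)
          linarith
        have h4 := Real.add_one_le_exp (- (c / D) * (1 / ((n : ℝ) + 1)))
        have h5 : - (c / D) * (1 / ((n : ℝ) + 1)) = - (c / (D * (n + 1))) := by
          rw [mul_one_div, neg_div, div_div]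
        rw [h5] at h4 ⊢
        linarith
      rw [sum_range_succ, mul_add, Real.exp_add]
      have h6 : ((Sb K w m (n + 1)).card : ℝ) / 10 ^ m (n + 1) ≤
          (1 - c / (1 + Real.log ((m (n + 1) : ℕ) + 1))) * (((Sb K w m n).card : ℝ) / 10 ^ m n) := by
        rw [div_le_iff₀ (by positivity)]
        refine h1.trans (le_of_eq ?_)
        field_simp
      refine h6.trans ?_
      calc (1 - c / (1 + Real.log ((m (n + 1) : ℕ) + 1))) * (((Sb K w m n).card : ℝ) / 10 ^ m n)
          ≤ Real.exp (- (c / D) * (1 / ((n : ℝ) + 1))) * (((Sb K w m n).card : ℝ) / 10 ^ m n) :=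
            mul_le_mul_of_nonneg_right h2 (by positivity)
        _ ≤ Real.exp (- (c / D) * (1 / ((n : ℝ) + 1))) *
              Real.exp (- (c / D) * ∑ i ∈ range n, 1 / ((i : ℝ) + 1)) :=
            mul_le_mul_of_nonneg_left ih (Real.exp_pos _).le
        _ = _ := by ring
  have htend : Tendsto (fun n : ℕ => Real.exp (- (c / D) * ∑ i ∈ range n, 1 / ((i : ℝ) + 1)))
      atTop (𝓝 0) := by
    apply Real.tendsto_exp_atBot.comp
    apply Tendsto.const_mul_atTop_of_neg _ Real.tendsto_sum_range_one_div_nat_succ_atTop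
    have : 0 < c / D := by positivity
    linarith
  -- the bad set
  rw [ae_iff]
  obtain ⟨Bad, hBad⟩ : ∃ Bad : Set (ℕ → Fin 10), Bad = {x | ¬ ∃ m : ℕ, m1 ≤ m ∧ ∃ l : ℕ,
    l ≤ 32 * K * m ∧ Good (w m) m (dsum 10 l x)} := ⟨_, rfl⟩
  rw [← hBad]
  have hsub : ∀ n, Bad ⊆ {x | dsum 10 (m n) x ∈ Sb K w m n} := by
    intro n x hx
    rw [hBad] at hx
    have hx' : ¬ ∃ m : ℕ, m1 ≤ m ∧ ∃ l : ℕ, l ≤ 32 * K * m ∧ Good (w m) m (dsum 10 l x) := hx
    push Not at hx'
    show dsum 10 (m n) x ∈ Sb K w m n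
    induction n with
    | zero => unfold Sb; exact mem_range.2 (dsum_lt 10 _ x)
    | succ n ih =>
      unfold Sb
      rw [mem_filter, mem_range]
      have hle : m n ≤ m (n + 1) := by
        rw [hm_succ, ← hH]; exact Nat.le_mul_of_pos_left _ (by positivity)
      refine ⟨dsum_lt 10 _ x, ?_, ?_⟩
      · rw [dsum_mod x hle]; exact ih
      · rintro ⟨l, hl, hG⟩
        rw [mem_Ioc, ← hm_succ] at hl
        rw [dsum_mod x hl.2] at hG
        exact hx' (m n) (hmge n) l (by rw [← hm_succ]; exact hl.2) hG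
  have hreal : ∀ n, (digitMeasure 10).real Bad ≤
      Real.exp (- (c / D) * ∑ i ∈ range n, 1 / ((i : ℝ) + 1)) := by
    intro n
    refine le_trans (measureReal_mono (hsub n)) ?_
    rw [measure_mem (m n) (Sb K w m n) (Sb_lt K w m n)]
    exact hdens n
  have h0 : (digitMeasure 10).real Bad ≤ 0 := ge_of_tendsto' htend hreal
  have h1 : (digitMeasure 10).real Bad = 0 := le_antisymm h0 measureReal_nonneg
  exact (measureReal_eq_zero_iff).1 h1

end Pool.Agent.H77.TO
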