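import Pool.Agent.H77.TO.Cnt
import Pool.Agent.H77.TO.Stm
import Pool.Graph.R_seed8.H95R2.Leh.ApSieve
import Pool.Graph.R_seed8.Helper112.PairSieve

/-!
# Sieve bounds modulo powers of `b`
-/

set_option autoImplicit false

namespace Pool.Agent.H77.TO

open Finset

theorem pow_div_totient {b e : ℕ} (hb : 2 ≤ b) (he : 1 ≤ e) :
    ((b ^ e : ℕ) : ℝ) / Nat.totient (b ^ e) = (b : ℝ) / Nat.totient b := by
  have h1 : ∀ n : ℕ, 0 < n → ((n : ℕ) : ℝ) / Nat.totient n = (∏ p ∈ n.primeFactors, (1 - (p : ℝ)⁻¹))⁻¹ := by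
    intro n hn
    have h2 := Nat.totient_eq_mul_prod_factors n
    have h3 : ((Nat.totient n : ℕ) : ℝ) = (n : ℝ) * ∏ p ∈ n.primeFactors, (1 - (p : ℝ)⁻¹) := by
      have h4 := congrArg (fun q : ℚ => (q : ℝ)) h2
      push_cast at h4
      exact h4
    have hn0 : (n : ℝ) ≠ 0 := by exact_mod_cast hn.ne'
    rw [h3, ← div_div, div_self hn0, one_div]
  rw [h1 (b ^ e) (by positivity), h1 b (by omega), Nat.primeFactors_pow b (by omega)]

theorem log_pow_ge {b : ℕ} (hb : 2 ≤ b) (j : ℕ) : (j : ℝ) / 2 ≤ Real.log (((b ^ j : ℕ)) : ℝ) := by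
  push_cast
  rw [Real.log_pow]
  have h1 : (1 : ℝ) / 2 ≤ Real.log b := by
    have h2 : Real.log 2 ≤ Real.log b := Real.log_le_log (by norm_num) (by exact_mod_cast hb)
    have := Real.log_two_gt_d9
    linarith
  have : (0 : ℝ) ≤ j := Nat.cast_nonneg j
  nlinarith

/-- primes in short progressions modulo powers of `b` -/
theorem sieveb (b : ℕ) (hb : 2 ≤ b) : ∃ C : ℝ, 1 ≤ C ∧ ∀ e a j : ℕ, 1 ≤ e → 1 ≤ j →
    (((range (b ^ j)).filter (fun r => (a + b ^ e * r).Prime)).card : ℝ) ≤ C * b ^ j / (j + 1) := by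
  classical
  obtain ⟨C, hC, h⟩ := Pool.Agent.H95R2.Leh.ap_sieve
  have hG1 : (1 : ℝ) ≤ (b : ℝ) / Nat.totient b := by
    rw [one_le_div (by exact_mod_cast Nat.totient_pos.2 (by omega))]
    exact_mod_cast Nat.totient_le b
  obtain ⟨G, hG⟩ : ∃ G : ℝ, G = (b : ℝ) / Nat.totient b := ⟨_, rfl⟩
  rw [← hG] at hG1
  refine ⟨4 * (C * G) + 2 * b, by
    have : (0 : ℝ) ≤ b := Nat.cast_nonneg b
    nlinarith [mul_le_mul hC hG1 (by norm_num) (by linarith : (0 : ℝ) ≤ C)], fun e a j he hj => ?_⟩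
  have hbj : 2 ≤ b ^ j := by
    calc 2 ≤ b := hb
      _ = b ^ 1 := (pow_one b).symm
      _ ≤ b ^ j := Nat.pow_le_pow_right (by omega) hj
  have h1 := h a (b ^ e) (b ^ j) (Nat.one_le_pow _ _ (by omega)) hbj
  have hsub : (range (b ^ j)).filter (fun r => (a + b ^ e * r).Prime) ⊆
      ((range (b ^ j)).filter
        (fun i => ∀ p : ℕ, p.Prime → (p : ℝ) ^ 8 ≤ ((b ^ j : ℕ) : ℝ) → ¬ p ∣ a + i * b ^ e)) ∪
      range (b ^ (j / 8 + 1)) := by
    intro r hr
    rw [mem_filter, mem_range] at hr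
    rw [mem_union, mem_filter, mem_range, mem_range]
    by_cases hbb : r < b ^ (j / 8 + 1)
    · right; exact hbb
    · left
      push Not at hbb
      refine ⟨hr.1, fun p hp hp8 hpd => ?_⟩
      have e1 : a + r * b ^ e = a + b ^ e * r := by ring
      rw [e1] at hpd
      have e2 : p = a + b ^ e * r := (Nat.prime_dvd_prime_iff_eq hp hr.2).1 hpd
      have e3 : p ^ 8 ≤ b ^ j := by exact_mod_cast hp8
      have e4 : b ^ (j / 8 + 1) ≤ p := by
        rw [e2]
        calc b ^ (j / 8 + 1) ≤ r := hbb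
          _ ≤ b ^ e * r := Nat.le_mul_of_pos_left _ (by positivity)
          _ ≤ _ := Nat.le_add_left _ _
      have e5 : b ^ j < p ^ 8 := by
        calc b ^ j < b ^ ((j / 8 + 1) * 8) := Nat.pow_lt_pow_right (by omega) (by omega)
          _ = (b ^ (j / 8 + 1)) ^ 8 := by rw [pow_mul]
          _ ≤ p ^ 8 := Nat.pow_le_pow_left e4 8
      omega
  have h2 : (((range (b ^ j)).filter (fun r => (a + b ^ e * r).Prime)).card : ℝ) ≤
      C * (((b ^ e : ℕ) : ℝ) / Nat.totient (b ^ e)) * ((b ^ j : ℕ) : ℝ) / Real.log ((b ^ j : ℕ) : ℝ) +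
        (b : ℝ) ^ (j / 8 + 1) := by
    refine le_trans (Nat.cast_le.2 ((card_le_card hsub).trans (card_union_le _ _))) ?_
    rw [card_range]
    push_cast
    push_cast at h1
    linarith
  rw [pow_div_totient hb he, ← hG] at h2
  have hj0 : (0 : ℝ) < j := by exact_mod_cast hj
  have hj1 : (1 : ℝ) ≤ j := by exact_mod_cast hj
  have hb0 : (0 : ℝ) < b := by exact_mod_cast (by omega : 0 < b)
  have hlog := log_pow_ge hb j
  have h3 : C * G * ((b ^ j : ℕ) : ℝ) / Real.log ((b ^ j : ℕ) : ℝ) ≤ 4 * (C * G) * b ^ j / (j + 1) := by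
    have e10 : ((j : ℝ) + 1) / 4 ≤ Real.log ((b ^ j : ℕ) : ℝ) := by linarith
    have hCG : 0 ≤ C * G := by positivity
    calc C * G * ((b ^ j : ℕ) : ℝ) / Real.log ((b ^ j : ℕ) : ℝ) ≤
          C * G * ((b ^ j : ℕ) : ℝ) / (((j : ℝ) + 1) / 4) :=
          div_le_div_of_nonneg_left (by positivity) (by positivity) e10
      _ = 4 * (C * G) * b ^ j / (j + 1) := by
          push_cast
          field_simp
  have h4 : (b : ℝ) ^ (j / 8 + 1) ≤ 2 * b * b ^ j / (j + 1) := by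
    rw [le_div_iff₀ (by positivity)]
    have e11 : b ^ (j / 8 + 1) * (j + 1) ≤ 2 * b * b ^ j := by
      have e12 : j + 1 ≤ 2 * 2 ^ (j / 2) := by
        have : j / 2 + 1 ≤ 2 ^ (j / 2) := Nat.lt_two_pow_self
        omega
      have e13 : 2 ^ (j / 2) ≤ b ^ (j / 2) := Nat.pow_le_pow_left hb _
      calc b ^ (j / 8 + 1) * (j + 1) ≤ b ^ (j / 8 + 1) * (2 * b ^ (j / 2)) :=
            Nat.mul_le_mul_left _ (e12.trans (Nat.mul_le_mul_left _ e13))
        _ = 2 * b * b ^ (j / 8 + j / 2) := by rw [pow_succ, pow_add]; ring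
        _ ≤ 2 * b * b ^ j := Nat.mul_le_mul_left _ (Nat.pow_le_pow_right (by omega) (by omega))
    exact_mod_cast e11
  calc _ ≤ C * G * ((b ^ j : ℕ) : ℝ) / Real.log ((b ^ j : ℕ) : ℝ) + (b : ℝ) ^ (j / 8 + 1) := h2
    _ ≤ 4 * (C * G) * b ^ j / (j + 1) + 2 * b * b ^ j / (j + 1) := add_le_add h3 h4
    _ = (4 * (C * G) + 2 * b) * b ^ j / (j + 1) := by ring

/-- pairs of primes with a given difference -/
theorem pairb (b : ℕ) (hb : 2 ≤ b) : ∃ C : ℝ, 1 ≤ C ∧ ∀ m l w u r : ℕ, 1 ≤ m → m < l →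
    w.Coprime b → 1 ≤ r →
    (((range (b ^ l)).filter (fun t => t % b ^ m = u ∧ (w + b ^ m * t).Prime ∧
      (w + b ^ m * (t + b ^ l * r)).Prime)).card : ℝ) ≤
      C * ((r : ℝ) / Nat.totient r) ^ 2 * (b ^ (l - m) / ((l - m : ℕ) : ℝ) ^ 2) := by
  classical
  obtain ⟨C, hC, h⟩ := Pool.Agent.Helper112.E456.sieve_two
  obtain ⟨G, hG⟩ : ∃ G : ℝ, G = (b : ℝ) / Nat.totient b := ⟨_, rfl⟩
  have hG0 : 0 ≤ G := by rw [hG]; positivity
  refine ⟨4 * C * G ^ 2 + 2, by nlinarith [mul_nonneg hC.le (sq_nonneg G)], ?_⟩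
  intro m l w u r hm hl hw hr
  obtain ⟨n, hn⟩ : ∃ n : ℕ, n = l - m := ⟨_, rfl⟩
  have hn1 : 1 ≤ n := by omega
  rw [← hn]
  obtain ⟨a, ha⟩ : ∃ a : ℕ, a = w + b ^ m * u := ⟨_, rfl⟩
  have hac : ∀ e, Nat.Coprime (b ^ e) a := by
    intro e
    apply Nat.Coprime.pow_left
    rw [ha]
    obtain ⟨m', rfl⟩ : ∃ m', m = m' + 1 := ⟨m - 1, by omega⟩
    rw [pow_succ, show w + b ^ m' * b * u = w + b * (b ^ m' * u) by ring]
    exact (Nat.coprime_add_mul_left_right b w _).2 hw.symm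
  have hac2 : Nat.Coprime (b ^ (2 * m)) (a + b ^ (m + l) * r) := by
    apply Nat.Coprime.pow_left
    have h3 : Nat.Coprime b a := by simpa using hac 1
    obtain ⟨m', hm'⟩ : ∃ m', m + l = m' + 1 := ⟨m + l - 1, by omega⟩
    rw [hm', pow_succ, show a + b ^ m' * b * r = a + b * (b ^ m' * r) by ring]
    exact (Nat.coprime_add_mul_left_right b a _).2 h3
  have hbn : 2 ≤ b ^ n := by
    calc 2 ≤ b := hb
      _ = b ^ 1 := (pow_one b).symm
      _ ≤ b ^ n := Nat.pow_le_pow_right (by omega) hn1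
  have hne : b ^ (2 * m) * (a + b ^ (m + l) * r) ≠ b ^ (2 * m) * a := by
    intro h3
    have h4 := Nat.eq_of_mul_eq_mul_left (by positivity) h3
    have : 0 < b ^ (m + l) * r := by positivity
    omega
  have h1 := h (b ^ (2 * m)) a (b ^ (2 * m)) (a + b ^ (m + l) * r) (b ^ n) (by positivity) (by positivity)
    (hac _) hac2 hne hbn
  -- the discriminant
  have hD : b ^ (2 * m) * b ^ (2 * m) * (((b ^ (2 * m) * (a + b ^ (m + l) * r) : ℕ) : ℤ) -
      ((b ^ (2 * m) * a : ℕ) : ℤ)).natAbs = b ^ (7 * m + l) * r := by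
    have e1 : (((b ^ (2 * m) * (a + b ^ (m + l) * r) : ℕ) : ℤ) - ((b ^ (2 * m) * a : ℕ) : ℤ)) =
        ((b ^ (2 * m) * (b ^ (m + l) * r) : ℕ) : ℤ) := by
      push_cast; ring
    rw [e1, Int.natAbs_natCast, ← mul_assoc (b ^ (2 * m)) (b ^ (m + l)) r, ← mul_assoc, ← pow_add, ← pow_add,
      ← pow_add]
    congr 2
    ring
  rw [hD] at h1
  have hφr : (0 : ℝ) < Nat.totient r := by exact_mod_cast Nat.totient_pos.2 (by omega)
  have hφb : (0 : ℝ) < Nat.totient (b ^ (7 * m + l)) := by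
    exact_mod_cast Nat.totient_pos.2 (by positivity)
  have hratio : (((b ^ (7 * m + l) * r : ℕ)) : ℝ) / Nat.totient (b ^ (7 * m + l) * r) ≤
      G * ((r : ℝ) / Nat.totient r) := by
    have e2 : Nat.totient (b ^ (7 * m + l)) * Nat.totient r ≤ Nat.totient (b ^ (7 * m + l) * r) :=
      Nat.totient_super_multiplicative _ _
    rw [hG, ← pow_div_totient hb (show 1 ≤ 7 * m + l by omega), div_mul_div_comm]
    push_cast
    apply div_le_div_of_nonneg_left (by positivity) (by positivity)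
    exact_mod_cast e2
  have hlog := log_pow_ge hb n
  have hn0 : (0 : ℝ) < n := by exact_mod_cast hn1
  have h5 : (((Icc 1 (b ^ n)).filter (fun v => (b ^ (2 * m) * v + a).Prime ∧
      (b ^ (2 * m) * v + (a + b ^ (m + l) * r)).Prime)).card : ℝ) ≤
      4 * C * G ^ 2 * ((r : ℝ) / Nat.totient r) ^ 2 * (b ^ n / (n : ℝ) ^ 2) := by
    refine h1.trans ?_
    have e3 : C * ((((b ^ (7 * m + l) * r : ℕ)) : ℝ) / Nat.totient (b ^ (7 * m + l) * r)) ^ 2 *
        ((b ^ n : ℕ) : ℝ) / Real.log ((b ^ n : ℕ) : ℝ) ^ 2 ≤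
        C * (G * ((r : ℝ) / Nat.totient r)) ^ 2 * ((b ^ n : ℕ) : ℝ) / ((n : ℝ) / 2) ^ 2 := by
      gcongr
    refine e3.trans (le_of_eq ?_)
    push_cast
    field_simp
    ring
  -- the class
  have h6 : ((range (b ^ l)).filter (fun t => t % b ^ m = u ∧ (w + b ^ m * t).Prime ∧
      (w + b ^ m * (t + b ^ l * r)).Prime)).card ≤
      ((Icc 1 (b ^ n)).filter (fun v => (b ^ (2 * m) * v + a).Prime ∧
      (b ^ (2 * m) * v + (a + b ^ (m + l) * r)).Prime)).card + 1 := by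
    have e4 : ((range (b ^ l)).filter (fun t => t % b ^ m = u ∧ (w + b ^ m * t).Prime ∧
        (w + b ^ m * (t + b ^ l * r)).Prime)).card ≤
        (insert 0 ((Icc 1 (b ^ n)).filter (fun v => (b ^ (2 * m) * v + a).Prime ∧
        (b ^ (2 * m) * v + (a + b ^ (m + l) * r)).Prime))).card := by
      apply card_le_card_of_injOn (fun t => t / b ^ m)
      · intro t ht
        simp only [coe_filter, mem_range, Set.mem_ofPred_eq] at ht
        obtain ⟨ht1, ht2, ht3, ht4⟩ := ht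
        have e5 : u + b ^ m * (t / b ^ m) = t := by rw [← ht2]; exact Nat.mod_add_div t _
        simp only [coe_insert, Set.mem_insert_iff, coe_filter, mem_Icc, Set.mem_ofPred_eq]
        rcases Nat.eq_zero_or_pos (t / b ^ m) with h7 | h7
        · left; exact h7
        · right
          refine ⟨⟨h7, ?_⟩, ?_, ?_⟩
          · apply Nat.le_of_lt
            apply Nat.div_lt_of_lt_mul
            rw [← pow_add, hn, show m + (l - m) = l by omega]
            exact ht1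
          · have e6 : b ^ (2 * m) * (t / b ^ m) + a = w + b ^ m * t := by
              conv_rhs => rw [← e5]
              rw [ha, show 2 * m = m + m by ring, pow_add]
              ring
            rw [e6]; exact ht3
          · have e6 : b ^ (2 * m) * (t / b ^ m) + (a + b ^ (m + l) * r) =
                w + b ^ m * (t + b ^ l * r) := by
              conv_rhs => rw [← e5]
              rw [ha, show 2 * m = m + m by ring, pow_add, pow_add]
              ring
            rw [e6]; exact ht4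
      · intro t ht t' ht' htt
        simp only [coe_filter, mem_range, Set.mem_ofPred_eq] at ht ht'
        simp only at htt
        rw [← Nat.mod_add_div t (b ^ m), ← Nat.mod_add_div t' (b ^ m), ht.2.1, ht'.2.1, htt]
    exact e4.trans (card_insert_le _ _)
  have h8 : (1 : ℝ) ≤ 2 * ((r : ℝ) / Nat.totient r) ^ 2 * (b ^ n / (n : ℝ) ^ 2) := by
    have e7 : (1 : ℝ) ≤ (r : ℝ) / Nat.totient r := by
      rw [one_le_div hφr]
      exact_mod_cast Nat.totient_le r
    have e8 : (1 : ℝ) ≤ ((r : ℝ) / Nat.totient r) ^ 2 := one_le_pow₀ e7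
    have e9 : n ^ 2 ≤ 2 * b ^ n := by
      have e10 : ∀ k : ℕ, k ^ 2 ≤ 2 * 2 ^ k := by
        intro k
        rcases Nat.lt_or_ge k 4 with hk | hk
        · interval_cases k <;> norm_num
        · induction k, hk using Nat.le_induction with
          | base => norm_num
          | succ k hk ih => rw [pow_succ 2 k]; nlinarith
      exact (e10 n).trans (Nat.mul_le_mul_left _ (Nat.pow_le_pow_left hb n))
    have e11 : (1 : ℝ) / 2 ≤ b ^ n / (n : ℝ) ^ 2 := by
      rw [div_le_div_iff₀ (by norm_num) (by positivity)]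
      have : ((n : ℝ)) ^ 2 ≤ 2 * (b : ℝ) ^ n := by exact_mod_cast e9
      linarith
    nlinarith [mul_le_mul e8 e11 (by norm_num) (by positivity)]
  calc (((range (b ^ l)).filter (fun t => t % b ^ m = u ∧ (w + b ^ m * t).Prime ∧
      (w + b ^ m * (t + b ^ l * r)).Prime)).card : ℝ) ≤
      (((Icc 1 (b ^ n)).filter (fun v => (b ^ (2 * m) * v + a).Prime ∧
      (b ^ (2 * m) * v + (a + b ^ (m + l) * r)).Prime)).card : ℝ) + 1 := by exact_mod_cast h6
    _ ≤ 4 * C * G ^ 2 * ((r : ℝ) / Nat.totient r) ^ 2 * (b ^ n / (n : ℝ) ^ 2) +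
        2 * ((r : ℝ) / Nat.totient r) ^ 2 * (b ^ n / (n : ℝ) ^ 2) := add_le_add h5 h8
    _ = _ := by ring

end Pool.Agent.H77.TO
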